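import Pool.Agent.EvenGame.Defs

set_option autoImplicit false

namespace Pool.Agent.EvenGame

open Finset

noncomputable section

namespace CoreAux

def eta (j : ℕ) : ℝ := (1 / 12) * (5 / 6) ^ j

def ep (B : ℕ) : ℝ := 192 * ((B : ℝ) + 3) ^ 2 * (4 / 5) ^ B / 10 ^ 6

theorem sum_ep (n : ℕ) : ∑ B ∈ range n, ep B =
    192 * (345 - (5 * (n : ℝ) ^ 2 + 70 * n + 345) * (4 / 5) ^ n) / 10 ^ 6 := by
  induction n with
  | zero => simp
  | succ n ih =>
    rw [sum_range_succ, ih, ep]
    push_cast
    ring

theorem sum_eta (n : ℕ) : ∑ B ∈ range n, eta B = (1 / 2) * (1 - (5 / 6) ^ n) := by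
  induction n with
  | zero => simp
  | succ n ih =>
    rw [sum_range_succ, ih, eta]
    ring

theorem eta_pos (j : ℕ) : 0 < eta j := by unfold eta; positivity

theorem ep_nonneg (j : ℕ) : 0 ≤ ep j := by unfold ep; positivity

theorem eta_anti {i j : ℕ} (h : i ≤ j) : eta j ≤ eta i := by
  unfold eta
  have : ((5 : ℝ) / 6) ^ j ≤ (5 / 6) ^ i := pow_le_pow_of_le_one (by norm_num) (by norm_num) h
  linarith

theorem cap_pos (i : ℕ) : 0 < cap i := by unfold cap NN; positivity

theorem lam_nonneg (i : ℕ) : 0 ≤ lam i := by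
  unfold lam
  have := cap_pos i
  positivity

theorem Lam_nonneg (i : ℕ) : 0 ≤ Lam i := by unfold Lam; positivity

theorem lin_le_pow (i : ℕ) : (i : ℝ) + 3 ≤ 3 * (3 / 2) ^ i := by
  induction i with
  | zero => simp
  | succ n ih =>
    push_cast
    rw [pow_succ]
    have : (0 : ℝ) ≤ n := Nat.cast_nonneg n
    nlinarith

theorem lam_le (i : ℕ) : lam i ≤ 3 / 10 ^ 6 := by
  unfold lam cap NN
  rw [div_le_div_iff₀ (by positivity) (by norm_num)]
  have := lin_le_pow i
  nlinarith

theorem exp_sub_one_le {t : ℝ} (h0 : 0 ≤ t) (h1 : t ≤ 1) : Real.exp t - 1 ≤ t * (1 + t) := by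
  have := Real.exp_bound' h0 h1 (n := 2) (by norm_num)
  simp [Finset.sum_range_succ] at this
  nlinarith

theorem prod_ep_le (s : Finset ℕ) (n : ℕ) (hs : s ⊆ range n) :
    ∏ B ∈ s, (1 + ep B) ≤ 6 / 5 := by
  have h1 : ∏ B ∈ s, (1 + ep B) ≤ Real.exp (∑ B ∈ s, ep B) := by
    rw [Real.exp_sum]
    apply prod_le_prod
    · intro i _
      have := ep_nonneg i
      linarith
    · intro i _
      have := Real.add_one_le_exp (ep i)
      linarith
  have h2 : ∑ B ∈ s, ep B ≤ 7 / 100 := by
    calc ∑ B ∈ s, ep B ≤ ∑ B ∈ range n, ep B :=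
          sum_le_sum_of_subset_of_nonneg hs (fun i _ _ => ep_nonneg i)
      _ ≤ 7 / 100 := by
          rw [sum_ep]
          have : (0 : ℝ) ≤ (5 * (n : ℝ) ^ 2 + 70 * n + 345) * (4 / 5) ^ n := by positivity
          linarith
  have h3 : (0 : ℝ) ≤ ∑ B ∈ s, ep B := sum_nonneg (fun i _ => ep_nonneg i)
  have h4 : Real.exp (∑ B ∈ s, ep B) ≤ 1 / (1 - ∑ B ∈ s, ep B) :=
    Real.exp_bound_div_one_sub_of_interval h3 (by linarith)
  have h5 : 1 / (1 - ∑ B ∈ s, ep B) ≤ 6 / 5 := by
    rw [div_le_div_iff₀ (by linarith) (by norm_num)]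
    linarith
  linarith

/-- The abstract version. -/
theorem core_abs (R : ℕ) (D ap dep u d : ℕ → ℝ) (X : ℕ → ℕ → ℝ)
    (hap : ∀ i < R, 0 ≤ ap i) (hd : ∀ i < R, 0 ≤ d i) (hsum : ∑ i ∈ range R, d i = 2)
    (hu0 : ∀ i < R, 0 ≤ u i) (hu1 : ∀ i < R, u i ≤ 2 ^ (i + 3) * lam i)
    (hdep0 : ∀ i < R, 0 ≤ dep i) (hdep : ∀ i < R, d i * u i ≤ (1 + lam i) * dep i)
    (hD0 : D 0 = 0)
    (hDs : ∀ i < R, D (i + 1) = D i + ap i * (Real.exp (Lam i * D i) - 1) + dep i)
    (hX1 : ∀ j < R, X j (j + 1) = u j)
    (hX2 : ∀ j A, j < A → A < R → X j (A + 1) = X j A + ap A * (Real.exp (Lam A * X j A) - 1))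
    (hlt : ∀ j < R, D R < X j R) : False := by
  have hDnn : ∀ i ≤ R, 0 ≤ D i := by
    intro i
    induction i with
    | zero => intro _; rw [hD0]
    | succ i ih =>
      intro hi
      have h := ih (by omega)
      rw [hDs i (by omega)]
      have h1 : 0 ≤ Real.exp (Lam i * D i) - 1 := by
        have := Real.add_one_le_exp (Lam i * D i)
        have := mul_nonneg (Lam_nonneg i) h
        linarith
      have h2 := mul_nonneg (hap i (by omega)) h1
      have h3 := hdep0 i (by omega)
      linarith
  have hXnn : ∀ j < R, ∀ A, j < A → A ≤ R → 0 ≤ X j A := by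
    intro j hj A hA
    induction A, hA using Nat.le_induction with
    | base => intro _; rw [hX1 j hj]; exact hu0 j hj
    | succ A hA ih =>
      intro hAR
      have h := ih (by omega)
      rw [hX2 j A hA (by omega)]
      have h1 : 0 ≤ Real.exp (Lam A * X j A) - 1 := by
        have := Real.add_one_le_exp (Lam A * X j A)
        have := mul_nonneg (Lam_nonneg A) h
        linarith
      have h2 := mul_nonneg (hap A (by omega)) h1
      linarith
  -- one step of comparison
  have hstep : ∀ j A, j < A → A < R → X j A ≤ D A → X j (A + 1) ≤ D (A + 1) := by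
    intro j A hjA hAR hle
    rw [hX2 j A hjA hAR, hDs A hAR]
    have h1 : Real.exp (Lam A * X j A) ≤ Real.exp (Lam A * D A) := by
      apply Real.exp_le_exp.2
      exact mul_le_mul_of_nonneg_left hle (Lam_nonneg A)
    have h2 : ap A * (Real.exp (Lam A * X j A) - 1) ≤ ap A * (Real.exp (Lam A * D A) - 1) :=
      mul_le_mul_of_nonneg_left (by linarith) (hap A hAR)
    have h3 := hdep0 A hAR
    linarith
  have h0 : ∀ j A, j < A → A ≤ R → D A < X j A := by
    intro j A hjA hAR
    by_contra hcon
    push Not at hcon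
    have key : ∀ B, A ≤ B → B ≤ R → X j B ≤ D B := by
      intro B hB
      induction B, hB using Nat.le_induction with
      | base => intro _; exact hcon
      | succ B hB ih =>
        intro hBR
        exact hstep j B (by omega) (by omega) (ih (by omega))
    have := key R hAR le_rfl
    have := hlt j (by omega)
    linarith
  have h1 : ∀ A < R, D A ≤ 2 ^ (A + 3) * lam A := by
    intro A hA
    have e1 := h0 A (A + 1) (by omega) (by omega)
    rw [hX1 A hA] at e1
    have e2 := hu1 A hA
    have e3 : D A ≤ D (A + 1) := by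
      rw [hDs A hA]
      have h := hDnn A (by omega)
      have h1 : 0 ≤ Real.exp (Lam A * D A) - 1 := by
        have := Real.add_one_le_exp (Lam A * D A)
        have := mul_nonneg (Lam_nonneg A) h
        linarith
      have h2 := mul_nonneg (hap A hA) h1
      have h3 := hdep0 A hA
      linarith
    linarith
  set c : ℕ → ℝ := fun B => ap B * Lam B with hc
  set F : ℕ → ℕ → ℝ := fun j A => ∏ B ∈ Ico (j + 1) A, (1 + c B) with hF
  have hcnn : ∀ B < R, 0 ≤ c B := fun B hB => mul_nonneg (hap B hB) (Lam_nonneg B)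
  have hFnn : ∀ j A, A ≤ R → 0 ≤ F j A := by
    intro j A hA
    apply prod_nonneg
    intro B hB
    rw [mem_Ico] at hB
    have := hcnn B (by omega)
    linarith
  have hFs : ∀ j A, j < A → F j (A + 1) = F j A * (1 + c A) := by
    intro j A hjA
    simp only [hF]
    rw [prod_Ico_succ_top (by omega)]
  have hF1 : ∀ j, F j (j + 1) = 1 := by
    intro j
    simp [hF]
  have h3 : ∀ A ≤ R, ∑ j ∈ range A, dep j * F j A ≤ D A := by
    intro A
    induction A with
    | zero => intro _; simp [hD0]
    | succ A ih =>
      intro hA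
      have h := ih (by omega)
      rw [sum_range_succ, hF1, mul_one, hDs A (by omega)]
      have e1 : ∑ j ∈ range A, dep j * F j (A + 1) = (∑ j ∈ range A, dep j * F j A) * (1 + c A) := by
        rw [sum_mul]
        apply sum_congr rfl
        intro j hj
        rw [mem_range] at hj
        rw [hFs j A hj]
        ring
      rw [e1]
      have e2 : (∑ j ∈ range A, dep j * F j A) * (1 + c A) ≤ D A * (1 + c A) := by
        apply mul_le_mul_of_nonneg_right h
        have := hcnn A (by omega)
        linarith
      have e3 : D A * c A ≤ ap A * (Real.exp (Lam A * D A) - 1) := by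
        have := Real.add_one_le_exp (Lam A * D A)
        have e4 : ap A * (Lam A * D A) ≤ ap A * (Real.exp (Lam A * D A) - 1) :=
          mul_le_mul_of_nonneg_left (by linarith) (hap A (by omega))
        have e5 : D A * c A = ap A * (Lam A * D A) := by simp only [hc]; ring
        rw [e5]
        exact e4
      nlinarith
  have h3' : ∀ A ≤ R, ∀ j < A, dep j * F j A ≤ D A := by
    intro A hA j hj
    refine le_trans ?_ (h3 A hA)
    exact single_le_sum (f := fun j => dep j * F j A)
      (fun i hi => mul_nonneg (hdep0 i (by rw [mem_range] at hi; omega)) (hFnn i A hA)) (mem_range.2 hj)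
  -- the good indices
  have h4 : ∀ j < R, eta j ≤ d j → ∀ A, j < A → A ≤ R →
      X j A ≤ u j * F j A * ∏ B ∈ Ico (j + 1) A, (1 + ep B) := by
    intro j hj hgood A hA
    induction A, hA using Nat.le_induction with
    | base => intro _; rw [hX1 j hj, hF1]; simp
    | succ A hA ih =>
      intro hAR
      have hA' : j < A := hA
      have hAR' : A < R := by omega
      have h := ih (by omega)
      have hX := hXnn j hj A hA' (by omega)
      have hFn := hFnn j A (by omega)
      have hun := hu0 j hj
      have hprod : ∏ B ∈ Ico (j + 1) A, (1 + ep B) ≤ 6 / 5 :=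
        prod_ep_le _ A (by intro x hx; rw [mem_Ico] at hx; rw [mem_range]; omega)
      have hprod0 : 0 ≤ ∏ B ∈ Ico (j + 1) A, (1 + ep B) :=
        prod_nonneg (fun i _ => by have := ep_nonneg i; linarith)
      -- bound Lam A * X
      have hl := lam_le j
      have hl0 := lam_nonneg j
      have e1 : d j * X j A ≤ 2 * D A := by
        have g1 : X j A ≤ u j * F j A * (6 / 5) :=
          le_trans h (mul_le_mul_of_nonneg_left hprod (mul_nonneg hun hFn))
        have g2 : d j * X j A ≤ d j * (u j * F j A * (6 / 5)) :=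
          mul_le_mul_of_nonneg_left g1 (hd j hj)
        have g3 : d j * u j * F j A ≤ (1 + lam j) * dep j * F j A :=
          mul_le_mul_of_nonneg_right (hdep j hj) hFn
        have g4 := h3' A (by omega) j hA'
        have g5 : 0 ≤ dep j * F j A := mul_nonneg (hdep0 j hj) hFn
        nlinarith
      have e2 : Lam A * X j A ≤ ep A := by
        have g1 := h1 A hAR'
        have g2 : eta A ≤ d j := le_trans (eta_anti (by omega)) hgood
        have g3 : eta A * X j A ≤ 2 * (2 ^ (A + 3) * lam A) := by
          have := mul_le_mul_of_nonneg_right g2 hX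
          linarith
        have g4 : Lam A * (eta A * X j A) ≤ Lam A * (2 * (2 ^ (A + 3) * lam A)) :=
          mul_le_mul_of_nonneg_left g3 (Lam_nonneg A)
        have g5 : Lam A * (2 * (2 ^ (A + 3) * lam A)) = eta A * ep A := by
          unfold Lam lam cap NN eta ep
          have q1 : ((5 : ℝ) / 6) ^ A = 5 ^ A / 6 ^ A := div_pow _ _ _
          have q2 : ((4 : ℝ) / 5) ^ A = 4 ^ A / 5 ^ A := div_pow _ _ _
          have q3 : ((3 : ℝ) / 2) ^ A = 3 ^ A / 2 ^ A := div_pow _ _ _
          have q4 : (6 : ℝ) ^ A = 2 ^ A * 3 ^ A := by rw [← mul_pow]; norm_num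
          have q5 : (4 : ℝ) ^ A = 2 ^ A * 2 ^ A := by rw [← mul_pow]; norm_num
          rw [q1, q2, q3, q4, q5, pow_add]
          field_simp
          ring
        have g6 : eta A * (Lam A * X j A) ≤ eta A * ep A := by
          rw [← g5]
          calc eta A * (Lam A * X j A) = Lam A * (eta A * X j A) := by ring
            _ ≤ _ := g4
        exact le_of_mul_le_mul_left g6 (eta_pos A)
      have e3 : ep A ≤ 1 := by
        have := prod_ep_le {A} (A + 1) (by simp)
        rw [prod_singleton] at this
        linarith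
      have e4 : 0 ≤ Lam A * X j A := mul_nonneg (Lam_nonneg A) hX
      have e5 := exp_sub_one_le e4 (le_trans e2 e3)
      have e6 : ap A * (Real.exp (Lam A * X j A) - 1) ≤ ap A * (Lam A * X j A * (1 + ep A)) := by
        apply mul_le_mul_of_nonneg_left _ (hap A hAR')
        refine le_trans e5 ?_
        apply mul_le_mul_of_nonneg_left _ e4
        linarith
      have e7 : X j (A + 1) ≤ X j A * ((1 + c A) * (1 + ep A)) := by
        rw [hX2 j A hA' hAR']
        have g1 : ap A * (Lam A * X j A * (1 + ep A)) = X j A * (c A * (1 + ep A)) := by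
          simp only [hc]; ring
        have g2 : 0 ≤ X j A * ep A := mul_nonneg hX (ep_nonneg A)
        rw [g1] at e6
        nlinarith
      have e8 : X j A * ((1 + c A) * (1 + ep A)) ≤
          (u j * F j A * ∏ B ∈ Ico (j + 1) A, (1 + ep B)) * ((1 + c A) * (1 + ep A)) := by
        apply mul_le_mul_of_nonneg_right h
        have := hcnn A hAR'
        have := ep_nonneg A
        positivity
      rw [hFs j A hA', prod_Ico_succ_top (by omega)]
      calc X j (A + 1) ≤ _ := e7
        _ ≤ _ := e8
        _ = _ := by ring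
  -- final computation
  set good := (range R).filter (fun j => eta j ≤ d j) with hgooddef
  have hW : 3 / 2 ≤ ∑ j ∈ good, d j := by
    have e1 : ∑ j ∈ good, d j + ∑ j ∈ (range R).filter (fun j => ¬ eta j ≤ d j), d j = 2 := by
      rw [hgooddef, sum_filter_add_sum_filter_not, hsum]
    have e2 : ∑ j ∈ (range R).filter (fun j => ¬ eta j ≤ d j), d j ≤ ∑ j ∈ range R, eta j := by
      calc ∑ j ∈ (range R).filter (fun j => ¬ eta j ≤ d j), d j
          ≤ ∑ j ∈ (range R).filter (fun j => ¬ eta j ≤ d j), eta j := by
            apply sum_le_sum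
            intro i hi
            rw [mem_filter] at hi
            linarith [not_le.1 hi.2]
        _ ≤ ∑ j ∈ range R, eta j :=
            sum_le_sum_of_subset_of_nonneg (filter_subset _ _) (fun i _ _ => (eta_pos i).le)
    rw [sum_eta] at e2
    have : (0 : ℝ) ≤ (5 / 6) ^ R := by positivity
    linarith
  have hDR := hDnn R le_rfl
  have hS1 : (∑ j ∈ good, d j) * D R ≤ ∑ j ∈ good, d j * X j R := by
    rw [sum_mul]
    apply sum_le_sum
    intro j hj
    rw [hgooddef, mem_filter, mem_range] at hj
    exact mul_le_mul_of_nonneg_left (hlt j hj.1).le (hd j hj.1)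
  have hS2 : ∑ j ∈ good, d j * X j R ≤ (5 / 4) * D R := by
    calc ∑ j ∈ good, d j * X j R ≤ ∑ j ∈ good, (5 / 4) * (dep j * F j R) := by
          apply sum_le_sum
          intro j hj
          rw [hgooddef, mem_filter, mem_range] at hj
          have g1 := h4 j hj.1 hj.2 R hj.1 le_rfl
          have hprod : ∏ B ∈ Ico (j + 1) R, (1 + ep B) ≤ 6 / 5 :=
            prod_ep_le _ R (by intro x hx; rw [mem_Ico] at hx; rw [mem_range]; omega)
          have hFn := hFnn j R le_rfl
          have hun := hu0 j hj.1
          have g2 : X j R ≤ u j * F j R * (6 / 5) :=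
            le_trans g1 (mul_le_mul_of_nonneg_left hprod (mul_nonneg hun hFn))
          have g3 : d j * X j R ≤ d j * (u j * F j R * (6 / 5)) :=
            mul_le_mul_of_nonneg_left g2 (hd j hj.1)
          have g4 : d j * u j * F j R ≤ (1 + lam j) * dep j * F j R :=
            mul_le_mul_of_nonneg_right (hdep j hj.1) hFn
          have g5 : 0 ≤ dep j * F j R := mul_nonneg (hdep0 j hj.1) hFn
          have hl := lam_le j
          nlinarith
      _ = (5 / 4) * ∑ j ∈ good, dep j * F j R := by rw [mul_sum]
      _ ≤ (5 / 4) * ∑ j ∈ range R, dep j * F j R := by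
          apply mul_le_mul_of_nonneg_left _ (by norm_num)
          apply sum_le_sum_of_subset_of_nonneg (filter_subset _ _)
          intro i hi _
          rw [mem_range] at hi
          exact mul_nonneg (hdep0 i hi) (hFnn i R le_rfl)
      _ ≤ (5 / 4) * D R := by
          apply mul_le_mul_of_nonneg_left (h3 R le_rfl) (by norm_num)
  -- strictness
  have hne : good.Nonempty := by
    by_contra h
    rw [not_nonempty_iff_eq_empty] at h
    rw [h] at hW
    simp at hW
    linarith
  have hS3 : (∑ j ∈ good, d j) * D R < ∑ j ∈ good, d j * X j R := by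
    rw [sum_mul]
    apply sum_lt_sum_of_nonempty hne
    intro j hj
    rw [hgooddef, mem_filter, mem_range] at hj
    exact mul_lt_mul_of_pos_left (hlt j hj.1) (lt_of_lt_of_le (eta_pos j) hj.2)
  nlinarith

end CoreAux

open CoreAux

theorem core (R : ℕ) (a m d : ℕ → ℝ) (ha : ∀ i < R, 0 ≤ a i ∧ a i ≤ 2 ^ (i + 2))
    (hm : ∀ i < R, 0 ≤ m i ∧ m i ≤ 2 ^ (i + 2)) (hd : ∀ i < R, 0 ≤ d i)
    (hsum : ∑ i ∈ range R, d i = 2) :
    ∃ j < R, Del a m (fun i => (if i = j then 1 else 0) - d i) R ≤ 0 := by
  by_contra hcon
  push Not at hcon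
  set D : ℕ → ℝ := fun i => - Del a m (fun k => - d k) i with hD
  set P : ℕ → ℕ → ℝ := fun j A => Del a m (fun i => (if i = j then 1 else 0) - d i) A with hP
  have hPeq : ∀ j A, A ≤ j → P j A = - D A := by
    intro j A
    induction A with
    | zero => intro _; simp [hP, hD, Del]
    | succ A ih =>
      intro hA
      have h := ih (by omega)
      simp only [hP, hD, neg_neg] at h ⊢
      rw [Del, Del, h, if_neg (by omega)]
      simp
  have hDs : ∀ i, D (i + 1) = D i + (a i * Real.exp (-(Lam i * D i))) * (Real.exp (Lam i * D i) - 1)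
      + m i * Real.exp (-(lam i * d i)) * (Real.exp (lam i * d i) - 1) := by
    intro i
    simp only [hD]
    rw [Del]
    set t := Del a m (fun k => - d k) i
    have e1 : Real.exp (-(Lam i * -t)) * Real.exp (Lam i * -t) = 1 := by
      rw [← Real.exp_add]; simp
    have e2 : Real.exp (-(lam i * d i)) * Real.exp (lam i * d i) = 1 := by
      rw [← Real.exp_add]; simp
    have e3 : -(Lam i * -t) = Lam i * t := by ring
    have e4 : lam i * -d i = -(lam i * d i) := by ring
    rw [e3] at e1 ⊢
    rw [e4]
    linear_combination (-a i) * e1 + (-m i) * e2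
  apply core_abs R D (fun i => a i * Real.exp (-(Lam i * D i)))
    (fun i => m i * Real.exp (-(lam i * d i)) * (Real.exp (lam i * d i) - 1))
    (fun i => m i * Real.exp (-(lam i * d i)) * (Real.exp (lam i) - 1)) d
    (fun j A => P j A + D A)
  · intro i hi
    have := (ha i hi).1
    positivity
  · exact hd
  · exact hsum
  · intro i hi
    have h1 := (hm i hi).1
    have h2 : 0 ≤ Real.exp (lam i) - 1 := by
      have := Real.add_one_le_exp (lam i)
      have := lam_nonneg i
      linarith
    positivity
  · intro i hi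
    have h1 := hm i hi
    have hl0 := lam_nonneg i
    have hl := lam_le i
    have h2 : 0 ≤ Real.exp (lam i) - 1 := by
      have := Real.add_one_le_exp (lam i)
      linarith
    have h3 : Real.exp (lam i) - 1 ≤ 2 * lam i := by
      have := exp_sub_one_le hl0 (by linarith)
      nlinarith
    have h4 : Real.exp (-(lam i * d i)) ≤ 1 := by
      apply Real.exp_le_one_iff.2
      have := mul_nonneg hl0 (hd i hi)
      linarith
    have h5 : m i * Real.exp (-(lam i * d i)) ≤ m i := by
      have := mul_le_mul_of_nonneg_left h4 h1.1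
      linarith
    calc m i * Real.exp (-(lam i * d i)) * (Real.exp (lam i) - 1) ≤ 2 ^ (i + 2) * (2 * lam i) := by
          apply mul_le_mul (le_trans h5 h1.2) h3 h2 (by positivity)
      _ = 2 ^ (i + 3) * lam i := by ring
  · intro i hi
    have h1 := (hm i hi).1
    have h2 : 0 ≤ Real.exp (lam i * d i) - 1 := by
      have := Real.add_one_le_exp (lam i * d i)
      have := mul_nonneg (lam_nonneg i) (hd i hi)
      linarith
    positivity
  · intro i hi
    have h1 := (hm i hi).1
    have hl0 := lam_nonneg i
    have hl := lam_le i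
    have h2 : lam i * d i ≤ Real.exp (lam i * d i) - 1 := by
      have := Real.add_one_le_exp (lam i * d i)
      linarith
    have h3 := exp_sub_one_le hl0 (by linarith : lam i ≤ 1)
    have h4 : 0 ≤ m i * Real.exp (-(lam i * d i)) := by positivity
    have h5 : d i * (Real.exp (lam i) - 1) ≤ (1 + lam i) * (Real.exp (lam i * d i) - 1) := by
      have g1 : d i * (Real.exp (lam i) - 1) ≤ d i * (lam i * (1 + lam i)) :=
        mul_le_mul_of_nonneg_left h3 (hd i hi)
      have g2 : (1 + lam i) * (lam i * d i) ≤ (1 + lam i) * (Real.exp (lam i * d i) - 1) :=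
        mul_le_mul_of_nonneg_left h2 (by linarith)
      linarith
    calc d i * (m i * Real.exp (-(lam i * d i)) * (Real.exp (lam i) - 1))
        = (m i * Real.exp (-(lam i * d i))) * (d i * (Real.exp (lam i) - 1)) := by ring
      _ ≤ (m i * Real.exp (-(lam i * d i))) * ((1 + lam i) * (Real.exp (lam i * d i) - 1)) :=
          mul_le_mul_of_nonneg_left h5 h4
      _ = _ := by ring
  · simp [hD, Del]
  · intro i _
    exact hDs i
  · intro j _
    show P j (j + 1) + D (j + 1) = _
    have e0 := hPeq j j le_rfl
    have e1 : P j (j + 1) = P j j + a j * (Real.exp (Lam j * P j j) - 1)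
        + m j * (Real.exp (lam j * (1 - d j)) - 1) := by
      simp only [hP]
      rw [Del, if_pos rfl]
    have e2 : D (j + 1) = D j - a j * (Real.exp (Lam j * -D j) - 1)
        - m j * (Real.exp (lam j * -d j) - 1) := by
      simp only [hD]
      rw [Del]
      ring_nf
    rw [e1, e2, e0]
    have e3 : Real.exp (lam j * (1 - d j)) = Real.exp (-(lam j * d j)) * Real.exp (lam j) := by
      rw [← Real.exp_add]; ring_nf
    have e4 : lam j * -d j = -(lam j * d j) := by ring
    rw [e3, e4]
    ring
  · intro j A hjA _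
    show P j (A + 1) + D (A + 1) = _
    have e1 : P j (A + 1) = P j A + a A * (Real.exp (Lam A * P j A) - 1)
        + m A * (Real.exp (lam A * (0 - d A)) - 1) := by
      simp only [hP]
      rw [Del, if_neg (by omega)]
    have e2 : D (A + 1) = D A - a A * (Real.exp (Lam A * -D A) - 1)
        - m A * (Real.exp (lam A * -d A) - 1) := by
      simp only [hD]
      rw [Del]
      ring_nf
    rw [e1, e2]
    have e3 : Real.exp (Lam A * P j A) = Real.exp (-(Lam A * D A)) * Real.exp (Lam A * (P j A + D A)) := by
      rw [← Real.exp_add]; ring_nf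
    have e4 : Lam A * -D A = -(Lam A * D A) := by ring
    have e5 : lam A * (0 - d A) = lam A * -d A := by ring
    rw [e3, e4, e5]
    ring
  · intro j hj
    have := hcon j hj
    show D R < P j R + D R
    simp only [hP]
    linarith

end

end Pool.Agent.EvenGame
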