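import Mathlib

set_option autoImplicit false

namespace Pool.Agent.EvenGame

open Finset

noncomputable section

/-- The big constant of the overdraft capacities. -/
def NN : ℝ := 10 ^ 6

/-- The cell length; the game parameter is `k = 10 * KK`. -/
def KK : ℕ := 20 * 10 ^ 6

/-- Overdraft capacity of an account of level `i`. -/
def cap (i : ℕ) : ℝ := NN * (3 / 2) ^ i

/-- Rate of the account potential. -/
def lam (i : ℕ) : ℝ := ((i : ℝ) + 3) / cap i

/-- Rate of the block potential. -/
def Lam (i : ℕ) : ℝ := ((i : ℝ) + 3) / 2 ^ i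

/-- State of a one-sided accounts system: `y i p` is (picks - deposits) of the account keyed by the
dyadic block `(i, p)`, and `G i p` is the net contribution of the jobs whose top lies above the block. -/
structure Sys where
  y : ℕ → ℤ → ℝ
  G : ℕ → ℤ → ℝ

/-- Account potential. -/
def mu (s : Sys) (i : ℕ) (p : ℤ) : ℝ := 2 ^ (i + 2) * Real.exp (lam i * s.y i p - ((i : ℝ) + 3))

/-- Block potential. -/
def al (s : Sys) (i : ℕ) (p : ℤ) : ℝ := 2 ^ (i + 2) * Real.exp (Lam i * s.G i p - ((i : ℝ) + 3))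

/-- Total potential of the proper sub-blocks of a dyadic block. -/
def PiS (s : Sys) : ℕ → ℤ → ℝ
  | 0, _ => 0
  | i + 1, p => (PiS s i (2 * p) + al s i (2 * p) + mu s i (2 * p)) +
      (PiS s i (2 * p + 1) + al s i (2 * p + 1) + mu s i (2 * p + 1))

/-- The invariant of a system. -/
structure Inv (s : Sys) : Prop where
  h1 : ∀ i p, PiS s i p ≤ 2 ^ i + s.G i p
  h2 : ∀ i p, PiS s i p ≤ 2 ^ (i + 1)

/-- The changes of the potentials along a path, when the account changes are `e i`. -/
def Del (a m e : ℕ → ℝ) : ℕ → ℝ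
  | 0 => 0
  | i + 1 => Del a m e i + a i * (Real.exp (Lam i * Del a m e i) - 1) +
      m i * (Real.exp (lam i * e i) - 1)

/-- Sum of a node function over the dyadic subtree of a block. -/
def SS (g : ℕ → ℤ → ℝ) : ℕ → ℤ → ℝ
  | 0, u => g 0 u
  | i + 1, u => g (i + 1) u + (SS g i (2 * u) + SS g i (2 * u + 1))

/-- Node function supported on the leaves. -/
def lvl0 (f : ℤ → ℝ) : ℕ → ℤ → ℝ := fun i u => if i = 0 then f u else 0

/-- Deposit function of a job with options `(i, o i)`, `i < R`. -/
def depF (R : ℕ) (o : ℕ → ℤ) (d : ℕ → ℝ) : ℕ → ℤ → ℝ := fun i u => if i < R ∧ u = o i then d i else 0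

/-- The physical invariant: `M c` marks and `T c` tokens in the cell `c`, balances `bal`. -/
structure PInv (M T : ℤ → ℕ) (bal : ℕ → ℤ → ℝ) : Prop where
  nonneg : ∀ i u, 0 ≤ bal i u
  tok : ∀ u, T u ≤ KK
  le : ∀ i u, SS (fun i u => bal i u + lvl0 (fun u => (M u : ℝ) - (T u : ℝ) / (2 * KK) - 8 * NN) i u) i u ≤ 1

end

end Pool.Agent.EvenGame
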