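import Pool.Agent.EvenGame.Defs

set_option autoImplicit false

namespace Pool.Agent.EvenGame

open Finset

noncomputable section

namespace Geo

/-! Tree sums -/

theorem ss_lvl0 (f : ℤ → ℝ) (m : ℕ) (w : ℤ) :
    SS (lvl0 f) m w = ∑ u ∈ Ico (w * 2 ^ m) ((w + 1) * 2 ^ m), f u := by
  induction m generalizing w with
  | zero =>
      have : Ico (w * 2 ^ 0) ((w + 1) * 2 ^ 0) = {w} := by
        ext u
        simp only [pow_zero, mul_one, mem_Ico, mem_singleton]
        omega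
      rw [this, sum_singleton]
      simp [SS, lvl0]
  | succ m ih =>
      simp only [SS, ih]
      have h0 : lvl0 f (m + 1) w = 0 := by simp [lvl0]
      rw [h0, zero_add]
      have e1 : (2 * w) * 2 ^ m = w * 2 ^ (m + 1) := by rw [pow_succ]; ring
      have e3 : (2 * w + 1 + 1) * (2 : ℤ) ^ m = (w + 1) * 2 ^ (m + 1) := by rw [pow_succ]; ring
      rw [e1, e3]
      have hp : (0 : ℤ) < 2 ^ m := by positivity
      rw [← Ico_union_Ico_eq_Ico (a := w * 2 ^ (m + 1)) (b := (2 * w + 1) * 2 ^ m)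
        (c := (w + 1) * 2 ^ (m + 1)) (by rw [pow_succ]; nlinarith) (by rw [pow_succ]; nlinarith)]
      rw [sum_union (Ico_disjoint_Ico_consecutive _ _ _)]

theorem ss_add (f g : ℕ → ℤ → ℝ) (m : ℕ) (w : ℤ) :
    SS (fun i u => f i u + g i u) m w = SS f m w + SS g m w := by
  induction m generalizing w with
  | zero => simp [SS]
  | succ m ih => simp only [SS, ih]; ring

theorem depF_eq (R : ℕ) (o : ℕ → ℤ) (d : ℕ → ℝ) (i : ℕ) (u : ℤ) :
    depF R o d i u = if i < R ∧ o i = u then d i else 0 := by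
  unfold depF
  by_cases h : i < R ∧ u = o i
  · rw [if_pos h, if_pos ⟨h.1, h.2.symm⟩]
  · rw [if_neg h, if_neg (fun h' => h ⟨h'.1, h'.2.symm⟩)]

theorem ss_depF (R : ℕ) (o : ℕ → ℤ) (d : ℕ → ℝ) (m : ℕ) (w : ℤ) :
    SS (depF R o d) m w = ∑ i ∈ range R, (if i ≤ m ∧ o i / 2 ^ (m - i) = w then d i else 0) := by
  induction m generalizing w with
  | zero =>
      simp only [SS, depF_eq]
      by_cases h : 0 < R
      · rw [Finset.sum_eq_single 0]
        · simp [h]
        · intro i _ hi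
          rw [if_neg (by omega)]
        · intro h'
          simp [h] at h'
      · have : R = 0 := by omega
        subst this
        simp
  | succ m ih =>
      simp only [SS, ih, depF_eq]
      have h1 : (if m + 1 < R ∧ o (m + 1) = w then d (m + 1) else 0) =
          ∑ i ∈ range R, (if i = m + 1 ∧ o i = w then d i else 0) := by
        by_cases h : m + 1 < R
        · rw [Finset.sum_eq_single (m + 1)]
          · simp [h]
          · intro i _ hi
            rw [if_neg (by tauto)]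
          · intro h'
            simp [h] at h'
        · rw [if_neg (by tauto), Finset.sum_eq_zero]
          intro i hi
          rw [mem_range] at hi
          rw [if_neg (by omega)]
      rw [h1, ← sum_add_distrib, ← sum_add_distrib]
      apply sum_congr rfl
      intro i _
      by_cases hi : i ≤ m
      · have e : m + 1 - i = (m - i) + 1 := by omega
        have hdiv : o i / 2 ^ (m + 1 - i) = (o i / 2 ^ (m - i)) / 2 := by
          rw [e, pow_succ, Int.ediv_ediv_of_nonneg (by positivity)]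
        rw [hdiv, if_neg (by omega)]
        generalize o i / 2 ^ (m - i) = q
        by_cases hq : q / 2 = w
        · rw [if_pos (show i ≤ m + 1 ∧ q / 2 = w from ⟨by omega, hq⟩)]
          rcases (show q = 2 * w ∨ q = 2 * w + 1 by omega) with h | h
          · rw [if_pos ⟨hi, h⟩, if_neg (by omega)]; ring
          · rw [if_neg (by omega), if_pos ⟨hi, h⟩]; ring
        · rw [if_neg (by omega), if_neg (by omega), if_neg (by omega)]; ring
      · rw [if_neg (show ¬ (i ≤ m ∧ o i / 2 ^ (m - i) = 2 * w) by omega),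
          if_neg (show ¬ (i ≤ m ∧ o i / 2 ^ (m - i) = 2 * w + 1) by omega)]
        by_cases hi' : i = m + 1
        · subst hi'
          simp
        · rw [if_neg (by tauto), if_neg (by omega)]; ring

/-! Floor divisions -/

theorem mul_le (x : ℤ) (i : ℕ) : x / 2 ^ i * 2 ^ i ≤ x :=
  Int.ediv_mul_le x (by positivity)

theorem lt_mul (x : ℤ) (i : ℕ) : x < (x / 2 ^ i + 1) * 2 ^ i :=
  Int.lt_ediv_add_one_mul_self x (by positivity)

theorem div_succ (x : ℤ) (i : ℕ) : x / 2 ^ (i + 1) = (x / 2 ^ i) / 2 := by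
  rw [pow_succ, Int.ediv_ediv_of_nonneg (by positivity)]

theorem div_eq_of_le {x y : ℤ} {i j : ℕ} (hij : i ≤ j) (h : x / 2 ^ i = y / 2 ^ i) :
    x / 2 ^ j = y / 2 ^ j := by
  obtain ⟨k, rfl⟩ := Nat.exists_eq_add_of_le hij
  rw [pow_add, ← Int.ediv_ediv_of_nonneg (by positivity),
    ← Int.ediv_ediv_of_nonneg (by positivity), h]

theorem small_div (x : ℤ) (i : ℕ) (h : |x| < 2 ^ i) : -1 ≤ x / 2 ^ i ∧ x / 2 ^ i ≤ 0 := by
  rw [abs_lt] at h
  have hp : (0 : ℤ) < 2 ^ i := by positivity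
  constructor
  · rw [Int.le_ediv_iff_mul_le hp]; linarith
  · have : x / 2 ^ i < 1 := by
      rw [Int.ediv_lt_iff_lt_mul hp]; linarith
    omega

/-- For `x < c` there is a level at which the block indices differ by exactly one. -/
theorem exists_level (x c : ℤ) (h : x < c) : ∃ i : ℕ, c / 2 ^ i - x / 2 ^ i = 1 := by
  have hex : ∃ i : ℕ, c / 2 ^ i - x / 2 ^ i ≤ 1 := by
    refine ⟨(|x| + |c|).toNat + 1, ?_⟩
    have hpow : |x| + |c| < 2 ^ ((|x| + |c|).toNat + 1) := by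
      have h1 : ((|x| + |c|).toNat : ℤ) < 2 ^ ((|x| + |c|).toNat) := by
        exact_mod_cast Nat.lt_two_pow_self
      have h2 : ((|x| + |c|).toNat : ℤ) = |x| + |c| := Int.toNat_of_nonneg (by positivity)
      rw [pow_succ]
      have h3 : (0 : ℤ) < 2 ^ ((|x| + |c|).toNat) := by positivity
      linarith
    have hx := small_div x _ (lt_of_le_of_lt (by linarith [abs_nonneg c]) hpow)
    have hc := small_div c _ (lt_of_le_of_lt (by linarith [abs_nonneg x]) hpow)
    omega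
  classical
  refine ⟨Nat.find hex, ?_⟩
  have h1 := Nat.find_spec hex
  rcases Nat.eq_zero_or_pos (Nat.find hex) with h0 | h0
  · rw [h0] at h1 ⊢
    simp only [pow_zero, Int.ediv_one] at h1 ⊢
    omega
  · obtain ⟨k, hk⟩ : ∃ k, Nat.find hex = k + 1 := ⟨Nat.find hex - 1, by omega⟩
    have h2 := Nat.find_min hex (show k < Nat.find hex by omega)
    rw [hk] at h1 ⊢
    rw [div_succ, div_succ] at h1 ⊢
    omega

theorem cover (x c b : ℤ) (hxc : x < c) (hcb : c < b) :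
    (∃ i : ℕ, c / 2 ^ i = x / 2 ^ i + 1 ∧ (x / 2 ^ i + 2) * 2 ^ i ≤ b) ∨
    (∃ i : ℕ, c / 2 ^ i = b / 2 ^ i - 1 ∧ x < (b / 2 ^ i - 1) * 2 ^ i) := by
  obtain ⟨i, hi⟩ := exists_level x c hxc
  obtain ⟨j, hj⟩ := exists_level c b hcb
  by_cases h1 : (x / 2 ^ i + 2) * 2 ^ i ≤ b
  · exact Or.inl ⟨i, by omega, h1⟩
  by_cases h2 : x < (b / 2 ^ j - 1) * 2 ^ j
  · exact Or.inr ⟨j, by omega, h2⟩
  exfalso
  push Not at h1 h2
  have hpi : (0 : ℤ) < 2 ^ i := by positivity
  have hpj : (0 : ℤ) < 2 ^ j := by positivity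
  have e1 : b / 2 ^ i = c / 2 ^ i := by
    have a1 : b / 2 ^ i < x / 2 ^ i + 2 := by rwa [Int.ediv_lt_iff_lt_mul hpi]
    have a2 : c / 2 ^ i ≤ b / 2 ^ i := Int.ediv_le_ediv hpi hcb.le
    omega
  have e2 : x / 2 ^ j = c / 2 ^ j := by
    have a1 : b / 2 ^ j - 1 ≤ x / 2 ^ j := by rwa [Int.le_ediv_iff_mul_le hpj]
    have a2 : x / 2 ^ j ≤ c / 2 ^ j := Int.ediv_le_ediv hpj hxc.le
    omega
  rcases le_total i j with hij | hij
  · have := div_eq_of_le hij e1
    omega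
  · have := div_eq_of_le hij e2
    omega

theorem closed_left (x b : ℤ) (i j : ℕ) (hij : i ≤ j) (h : (x / 2 ^ j + 2) * 2 ^ j ≤ b) :
    (x / 2 ^ i + 2) * 2 ^ i ≤ b := by
  have h1 : x / 2 ^ i < (x / 2 ^ j + 1) * 2 ^ (j - i) := by
    have hpi : (0 : ℤ) < 2 ^ i := by positivity
    rw [Int.ediv_lt_iff_lt_mul hpi, mul_assoc, ← pow_add, Nat.sub_add_cancel hij]
    exact lt_mul x j
  have h2 : (x / 2 ^ i + 1) * 2 ^ i ≤ (x / 2 ^ j + 1) * 2 ^ j := by
    have h := mul_le_mul_of_nonneg_right (show x / 2 ^ i + 1 ≤ (x / 2 ^ j + 1) * 2 ^ (j - i) by omega)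
      (show (0 : ℤ) ≤ 2 ^ i by positivity)
    rwa [mul_assoc, ← pow_add, Nat.sub_add_cancel hij] at h
  have h3 : (2 : ℤ) ^ i ≤ 2 ^ j := pow_le_pow_right₀ (by norm_num) hij
  linarith

theorem closed_right (x b : ℤ) (i j : ℕ) (hij : i ≤ j) (h : x < (b / 2 ^ j - 1) * 2 ^ j) :
    x < (b / 2 ^ i - 1) * 2 ^ i := by
  have h1 : b / 2 ^ j * 2 ^ (j - i) ≤ b / 2 ^ i := by
    have hpi : (0 : ℤ) < 2 ^ i := by positivity
    rw [Int.le_ediv_iff_mul_le hpi, mul_assoc, ← pow_add, Nat.sub_add_cancel hij]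
    exact mul_le b j
  have h2 : b / 2 ^ j * 2 ^ j ≤ b / 2 ^ i * 2 ^ i := by
    have h := mul_le_mul_of_nonneg_right h1 (show (0 : ℤ) ≤ 2 ^ i by positivity)
    rwa [mul_assoc, ← pow_add, Nat.sub_add_cancel hij] at h
  have h3 : (2 : ℤ) ^ i ≤ 2 ^ j := pow_le_pow_right₀ (by norm_num) hij
  linarith

theorem assemble (t : ℤ → ℕ) (S : Finset ℤ) (o : ℕ → ℤ) (P : ℕ → Prop)
    (hP : ∀ i j, i ≤ j → P j → P i) (lev : ℤ → ℕ) (hlev : ∀ c ∈ S, c / 2 ^ (lev c) = o (lev c))
    (hPl : ∀ c ∈ S, P (lev c)) (hsum : 4 * KK ≤ ∑ c ∈ S, t c) :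
    ∃ R : ℕ, ∃ d : ℕ → ℝ, (∀ i < R, 0 ≤ d i) ∧ ∑ i ∈ range R, d i = 2 ∧
      (∀ i < R, P i) ∧
      ∀ m w, SS (depF R o d) m w ≤ SS (lvl0 (fun u => (t u : ℝ) / (2 * KK))) m w := by
  classical
  have hK : (0 : ℝ) < (KK : ℝ) := by norm_num [KK]
  set τ : ℝ := ∑ c ∈ S, (t c : ℝ) with hτ
  have hτ4 : 4 * (KK : ℝ) ≤ τ := by
    rw [hτ]; exact_mod_cast hsum
  have hτ0 : 0 < τ := by linarith
  set R := S.sup lev + 1 with hR
  set d : ℕ → ℝ := fun i => 2 * (∑ c ∈ S with lev c = i, (t c : ℝ)) / τ with hd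
  have hmaps : ∀ c ∈ S, lev c ∈ range R := by
    intro c hc
    rw [mem_range, hR]
    exact Nat.lt_succ_of_le (Finset.le_sup hc)
  have hSne : S.Nonempty := by
    rw [Finset.nonempty_iff_ne_empty]
    intro h
    rw [h] at hsum
    simp [KK] at hsum
  refine ⟨R, d, ?_, ?_, ?_, ?_⟩
  · intro i _
    simp only [hd]
    positivity
  · simp only [hd]
    rw [← Finset.sum_div, ← Finset.mul_sum, Finset.sum_fiberwise_of_maps_to hmaps, ← hτ]
    field_simp
  · intro i hi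
    obtain ⟨c, hc, hc'⟩ := Finset.exists_mem_eq_sup S hSne lev
    apply hP i (lev c) _ (hPl c hc)
    rw [← hc']
    omega
  · intro m w
    rw [ss_depF, ss_lvl0]
    have hdi : ∀ i, d i ≤ ∑ c ∈ S with lev c = i, (t c : ℝ) / (2 * KK) := by
      intro i
      simp only [hd]
      rw [← Finset.sum_div]
      set s := ∑ c ∈ S with lev c = i, (t c : ℝ)
      have hs : 0 ≤ s := by positivity
      rw [div_le_div_iff₀ hτ0 (by positivity)]
      nlinarith
    have step1 : ∑ i ∈ range R, (if i ≤ m ∧ o i / 2 ^ (m - i) = w then d i else 0) ≤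
        ∑ i ∈ range R, ∑ c ∈ S with lev c = i,
          (if c / 2 ^ m = w then (t c : ℝ) / (2 * KK) else 0) := by
      apply Finset.sum_le_sum
      intro i _
      by_cases h : i ≤ m ∧ o i / 2 ^ (m - i) = w
      · rw [if_pos h]
        refine (hdi i).trans (Finset.sum_le_sum ?_)
        intro c hc
        rw [mem_filter] at hc
        have hc2 : c / 2 ^ m = w := by
          rw [← h.2, ← hc.2, ← hlev c hc.1, hc.2, Int.ediv_ediv_of_nonneg (by positivity),
            ← pow_add, Nat.add_sub_cancel' h.1]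
        rw [if_pos hc2]
      · rw [if_neg h]
        apply Finset.sum_nonneg
        intro c _
        split_ifs
        · positivity
        · exact le_refl _
    refine step1.trans ?_
    rw [Finset.sum_fiberwise_of_maps_to hmaps, ← Finset.sum_filter]
    apply Finset.sum_le_sum_of_subset_of_nonneg
    · intro c hc
      rw [mem_filter] at hc
      rw [mem_Ico, ← hc.2]
      exact ⟨mul_le c m, lt_mul c m⟩
    · intro c _ _
      positivity

end Geo

theorem geometry (t : ℤ → ℕ) (x b : ℤ) (ht : 8 * KK ≤ ∑ u ∈ Ioo x b, t u) :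
    (∃ R : ℕ, ∃ d : ℕ → ℝ, (∀ i < R, 0 ≤ d i) ∧ ∑ i ∈ range R, d i = 2 ∧
      (∀ i < R, (x / 2 ^ i + 2) * 2 ^ i ≤ b) ∧
      ∀ m w, SS (depF R (fun i => x / 2 ^ i + 1) d) m w ≤ SS (lvl0 (fun u => (t u : ℝ) / (2 * KK))) m w) ∨
    (∃ R : ℕ, ∃ d : ℕ → ℝ, (∀ i < R, 0 ≤ d i) ∧ ∑ i ∈ range R, d i = 2 ∧
      (∀ i < R, x < (b / 2 ^ i - 1) * 2 ^ i) ∧
      ∀ m w, SS (depF R (fun i => b / 2 ^ i - 1) d) m w ≤ SS (lvl0 (fun u => (t u : ℝ) / (2 * KK))) m w) := by
  classical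
  set PL : ℤ → Prop := fun c => ∃ i : ℕ, c / 2 ^ i = x / 2 ^ i + 1 ∧ (x / 2 ^ i + 2) * 2 ^ i ≤ b
    with hPL
  set PR : ℤ → Prop := fun c => ∃ i : ℕ, c / 2 ^ i = b / 2 ^ i - 1 ∧ x < (b / 2 ^ i - 1) * 2 ^ i
    with hPR
  have hsub : Ioo x b ⊆ (Ioo x b).filter PL ∪ (Ioo x b).filter PR := by
    intro c hc
    rw [mem_union, mem_filter, mem_filter]
    rw [mem_Ioo] at hc
    rcases Geo.cover x c b hc.1 hc.2 with h | h
    · exact Or.inl ⟨mem_Ioo.2 hc, h⟩
    · exact Or.inr ⟨mem_Ioo.2 hc, h⟩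
  have hle : ∑ u ∈ Ioo x b, t u ≤
      ∑ u ∈ (Ioo x b).filter PL, t u + ∑ u ∈ (Ioo x b).filter PR, t u := by
    refine (Finset.sum_le_sum_of_subset hsub).trans ?_
    rw [← Finset.sum_union_inter]
    exact Nat.le_add_right _ _
  rcases (show 4 * KK ≤ ∑ u ∈ (Ioo x b).filter PL, t u ∨
      4 * KK ≤ ∑ u ∈ (Ioo x b).filter PR, t u by omega) with h | h
  · left
    have hch : ∀ c : ℤ, ∃ i : ℕ, PL c → (c / 2 ^ i = x / 2 ^ i + 1 ∧ (x / 2 ^ i + 2) * 2 ^ i ≤ b) := by
      intro c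
      by_cases hc : PL c
      · obtain ⟨i, hi⟩ := hc
        exact ⟨i, fun _ => hi⟩
      · exact ⟨0, fun h => absurd h hc⟩
    choose lev hlev using hch
    exact Geo.assemble t _ (fun i => x / 2 ^ i + 1) (fun i => (x / 2 ^ i + 2) * 2 ^ i ≤ b)
      (fun i j hij hj => Geo.closed_left x b i j hij hj) lev
      (fun c hc => (hlev c (mem_filter.1 hc).2).1) (fun c hc => (hlev c (mem_filter.1 hc).2).2) h
  · right
    have hch : ∀ c : ℤ, ∃ i : ℕ, PR c → (c / 2 ^ i = b / 2 ^ i - 1 ∧ x < (b / 2 ^ i - 1) * 2 ^ i) := by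
      intro c
      by_cases hc : PR c
      · obtain ⟨i, hi⟩ := hc
        exact ⟨i, fun _ => hi⟩
      · exact ⟨0, fun h => absurd h hc⟩
    choose lev hlev using hch
    exact Geo.assemble t _ (fun i => b / 2 ^ i - 1) (fun i => x < (b / 2 ^ i - 1) * 2 ^ i)
      (fun i j hij hj => Geo.closed_right x b i j hij hj) lev
      (fun c hc => (hlev c (mem_filter.1 hc).2).1) (fun c hc => (hlev c (mem_filter.1 hc).2).2) h

end

end Pool.Agent.EvenGame
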