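import Pool.Agent.EvenGame.Defs

set_option autoImplicit false

namespace Pool.Agent.EvenGame

open Finset

noncomputable section

/-! Module C: tree sums and the placement of a mark. -/

private lemma SS_congr (g h : ℕ → ℤ → ℝ) (e : ∀ i u, g i u = h i u) (m : ℕ) (w : ℤ) :
    SS g m w = SS h m w := by
  have : g = h := by funext i u; exact e i u
  rw [this]

private lemma SS_add (g h : ℕ → ℤ → ℝ) (m : ℕ) (w : ℤ) :
    SS (fun i u => g i u + h i u) m w = SS g m w + SS h m w := by
  induction m generalizing w with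
  | zero => rfl
  | succ m ih => simp only [SS, ih]; ring

private lemma SS_sub (g h : ℕ → ℤ → ℝ) (m : ℕ) (w : ℤ) :
    SS (fun i u => g i u - h i u) m w = SS g m w - SS h m w := by
  induction m generalizing w with
  | zero => rfl
  | succ m ih => simp only [SS, ih]; ring

private lemma SS_zero (m : ℕ) (w : ℤ) : SS (fun _ _ => 0) m w = 0 := by
  induction m generalizing w with
  | zero => rfl
  | succ m ih => simp only [SS, ih]; ring

private lemma SS_sum (R : ℕ) (g : ℕ → ℕ → ℤ → ℝ) (m : ℕ) (w : ℤ) :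
    SS (fun i u => ∑ r ∈ range R, g r i u) m w = ∑ r ∈ range R, SS (g r) m w := by
  induction R with
  | zero => simpa using SS_zero m w
  | succ R ih =>
    rw [sum_range_succ, ← ih, ← SS_add]
    exact SS_congr _ _ (fun i u => sum_range_succ _ _) m w

/-- Single node. -/
private def nd (a : ℕ) (p : ℤ) (v : ℝ) : ℕ → ℤ → ℝ := fun i u => if i = a ∧ u = p then v else 0

private lemma SS_nd_lt (a : ℕ) (p : ℤ) (v : ℝ) (m : ℕ) (w : ℤ) (h : m < a) :
    SS (nd a p v) m w = 0 := by
  induction m generalizing w with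
  | zero =>
    simp only [SS, nd]
    rw [if_neg]; rintro ⟨h1, -⟩; omega
  | succ m ih =>
    simp only [SS]
    rw [ih (2 * w) (by omega), ih (2 * w + 1) (by omega)]
    simp only [nd]
    rw [if_neg]
    · ring
    · rintro ⟨h1, -⟩; omega

private lemma SS_nd_add (a : ℕ) (p : ℤ) (v : ℝ) (m : ℕ) (w : ℤ) :
    SS (nd a p v) (a + m) w = if p / 2 ^ m = w then v else 0 := by
  induction m generalizing w with
  | zero =>
    rcases a with _ | a
    · simp only [SS, nd, pow_zero, Int.ediv_one]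
      by_cases h : w = p
      · simp [h]
      · rw [if_neg, if_neg]
        · exact fun h' => h h'.symm
        · rintro ⟨-, h'⟩; exact h h'
    · simp only [SS, pow_zero, Int.ediv_one]
      rw [SS_nd_lt _ _ _ _ _ (Nat.lt_succ_self a), SS_nd_lt _ _ _ _ _ (Nat.lt_succ_self a)]
      simp only [nd]
      by_cases h : w = p
      · simp [h]
      · rw [if_neg, if_neg]
        · ring
        · exact fun h' => h h'.symm
        · rintro ⟨-, h'⟩; exact h h'
  | succ m ih =>
    rw [← Nat.add_assoc]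
    simp only [SS]
    rw [ih, ih]
    have e : p / 2 ^ (m + 1) = (p / 2 ^ m) / 2 := by
      rw [pow_succ, Int.ediv_ediv_of_nonneg (by positivity)]
    rw [e]
    generalize p / 2 ^ m = q
    simp only [nd]
    rw [if_neg (by rintro ⟨h', -⟩; omega)]
    by_cases h1 : q = 2 * w
    · rw [if_pos h1, if_neg (by omega), if_pos (by omega)]; ring
    · by_cases h2 : q = 2 * w + 1
      · rw [if_neg h1, if_pos h2, if_pos (by omega)]; ring
      · rw [if_neg h1, if_neg h2, if_neg (by omega)]; ring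

private lemma SS_nd (a : ℕ) (p : ℤ) (v : ℝ) (m : ℕ) (w : ℤ) :
    SS (nd a p v) m w = if a ≤ m ∧ p / 2 ^ (m - a) = w then v else 0 := by
  by_cases h : a ≤ m
  · obtain ⟨k, rfl⟩ := Nat.exists_eq_add_of_le h
    rw [SS_nd_add, Nat.add_sub_cancel_left]
    by_cases h2 : p / 2 ^ k = w
    · rw [if_pos h2, if_pos ⟨h, h2⟩]
    · rw [if_neg h2, if_neg (fun h' => h2 h'.2)]
  · rw [SS_nd_lt _ _ _ _ _ (not_le.1 h), if_neg (fun h' => h h'.1)]

/-- Tree sums of leaf functions and of single nodes. -/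
theorem SS_lvl0 (f : ℤ → ℝ) (m : ℕ) (w : ℤ) :
    SS (lvl0 f) m w = ∑ u ∈ Ico (w * 2 ^ m) ((w + 1) * 2 ^ m), f u := by
  induction m generalizing w with
  | zero =>
    have e : Ico w (w + 1) = {w} := by
      ext u; simp only [mem_Ico, mem_singleton]; omega
    simp only [SS, lvl0, pow_zero, mul_one, if_true]
    rw [e, sum_singleton]
  | succ m ih =>
    simp only [SS, ih]
    have h1 : w * 2 ^ (m + 1) = 2 * w * 2 ^ m := by ring
    have h2 : (w + 1) * 2 ^ (m + 1) = (2 * w + 1 + 1) * 2 ^ m := by ring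
    have hp : (0 : ℤ) < 2 ^ m := by positivity
    rw [h1, h2]
    have h3 : Ico (2 * w * 2 ^ m) ((2 * w + 1 + 1) * 2 ^ m) =
        Ico (2 * w * 2 ^ m) ((2 * w + 1) * 2 ^ m) ∪ Ico ((2 * w + 1) * 2 ^ m) ((2 * w + 1 + 1) * 2 ^ m) :=
      (Finset.Ico_union_Ico_eq_Ico (by nlinarith) (by nlinarith)).symm
    rw [h3, Finset.sum_union (Finset.Ico_disjoint_Ico_consecutive _ _ _)]
    simp only [lvl0]
    rw [if_neg (Nat.succ_ne_zero m), zero_add]

theorem SS_depF (R : ℕ) (o : ℕ → ℤ) (d : ℕ → ℝ) (m : ℕ) (w : ℤ) :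
    SS (depF R o d) m w = ∑ i ∈ range R, (if i ≤ m ∧ o i / 2 ^ (m - i) = w then d i else 0) := by
  have e : ∀ i u, depF R o d i u = ∑ r ∈ range R, nd r (o r) (d r) i u := by
    intro i u
    simp only [depF, nd]
    by_cases h : i < R
    · rw [Finset.sum_eq_single i]
      · by_cases h2 : u = o i
        · rw [if_pos ⟨h, h2⟩, if_pos ⟨rfl, h2⟩]
        · rw [if_neg (fun h' => h2 h'.2), if_neg (fun h' => h2 h'.2)]
      · intro b _ hb
        rw [if_neg (fun h' => hb h'.1.symm)]
      · intro h'; exact absurd (mem_range.2 h) h'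
    · rw [if_neg (fun h' => h h'.1), Finset.sum_eq_zero]
      intro r hr
      rw [if_neg]
      rintro ⟨h1, -⟩
      exact h (h1 ▸ mem_range.1 hr)
  rw [SS_congr _ _ e, SS_sum]
  exact Finset.sum_congr rfl (fun i _ => SS_nd _ _ _ _ _)

theorem pinv_zero : PInv (fun _ => 0) (fun _ => 0) (fun i _ => 2 * cap i) := by
  refine ⟨fun i _ => ?_, fun _ => Nat.zero_le _, fun i u => ?_⟩
  · have : 0 ≤ cap i := by unfold cap NN; positivity
    linarith
  · have key : ∀ i u, SS (fun i u => 2 * cap i +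
        lvl0 (fun _ => (((0 : ℕ) : ℝ)) - ((0 : ℕ) : ℝ) / (2 * KK) - 8 * NN) i u) i u =
        - (6 * NN * (3 / 2) ^ i) := by
      intro i
      induction i with
      | zero =>
        intro u
        simp only [SS, lvl0, cap]
        norm_num
        ring
      | succ i ih =>
        intro u
        simp only [SS]
        rw [ih, ih]
        simp only [lvl0, cap]
        rw [if_neg (Nat.succ_ne_zero i), pow_succ]
        ring
    have h := key i u
    have h2 : 0 ≤ 6 * NN * (3 / 2 : ℝ) ^ i := by unfold NN; positivity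
    calc _ = - (6 * NN * (3 / 2) ^ i) := h
      _ ≤ 1 := by linarith

private lemma descent (g : ℕ → ℤ → ℝ) (hg : ∀ i u, 0 ≤ g (i + 1) u) (i : ℕ) (w : ℤ)
    (h : SS g i w ≤ 0) : ∃ c : ℤ, c / 2 ^ i = w ∧ ∀ i' ≤ i, SS g i' (c / 2 ^ i') ≤ 0 := by
  induction i generalizing w with
  | zero =>
    refine ⟨w, by simp, fun i' hi' => ?_⟩
    obtain rfl : i' = 0 := by omega
    simpa using h
  | succ i ih =>
    simp only [SS] at h
    have h0 := hg i w
    have : SS g i (2 * w) ≤ 0 ∨ SS g i (2 * w + 1) ≤ 0 := by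
      by_contra hcon
      push Not at hcon
      linarith [hcon.1, hcon.2]
    rcases this with h1 | h1
    · obtain ⟨c, hc, hc2⟩ := ih _ h1
      have e : c / 2 ^ (i + 1) = w := by
        rw [pow_succ, ← Int.ediv_ediv_of_nonneg (by positivity), hc]; omega
      refine ⟨c, e, fun i' hi' => ?_⟩
      rcases Nat.lt_or_ge i i' with h2 | h2
      · obtain rfl : i' = i + 1 := by omega
        rw [e]; simp only [SS]; exact h
      · exact hc2 i' h2
    · obtain ⟨c, hc, hc2⟩ := ih _ h1
      have e : c / 2 ^ (i + 1) = w := by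
        rw [pow_succ, ← Int.ediv_ediv_of_nonneg (by positivity), hc]; omega
      refine ⟨c, e, fun i' hi' => ?_⟩
      rcases Nat.lt_or_ge i i' with h2 | h2
      · obtain rfl : i' = i + 1 := by omega
        rw [e]; simp only [SS]; exact h
      · exact hc2 i' h2

theorem place (M T : ℤ → ℕ) (bal bal' : ℕ → ℤ → ℝ) (h : PInv M T bal) (t : ℤ → ℕ)
    (ht : ∀ u, T u + t u ≤ KK) (R : ℕ) (o : ℕ → ℤ) (d : ℕ → ℝ) (j : ℕ) (hj : j < R)
    (hd : ∀ i < R, 0 ≤ d i)
    (hbal' : ∀ i u, bal' i u = bal i u + (if i < R ∧ u = o i then d i - (if i = j then 1 else 0) else 0))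
    (hnn : ∀ i u, 0 ≤ bal' i u)
    (hdep : ∀ m w, SS (depF R o d) m w ≤ SS (lvl0 (fun u => (t u : ℝ) / (2 * KK))) m w) :
    ∃ c : ℤ, c / 2 ^ j = o j ∧ 2 * M c < KK ∧
      PInv (Function.update M c (M c + 1)) (fun u => T u + t u) bal' := by
  have hK : (0 : ℝ) < 2 * KK := by unfold KK; norm_num
  -- the balances after the deposits, before the pick
  have hb : ∀ i u, bal i u + depF R o d i u = bal' i u + nd j (o j) 1 i u := by
    intro i u
    rw [hbal']
    simp only [depF, nd]
    by_cases h1 : i < R ∧ u = o i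
    · rw [if_pos h1, if_pos h1]
      by_cases h2 : i = j
      · subst h2; rw [if_pos rfl, if_pos ⟨rfl, h1.2⟩]; ring
      · rw [if_neg h2, if_neg (fun h' => h2 h'.1)]; ring
    · rw [if_neg h1, if_neg h1, if_neg]
      · ring
      · rintro ⟨rfl, h3⟩; exact h1 ⟨hj, h3⟩
  have hnd : ∀ i u, 0 ≤ nd j (o j) 1 i u := by
    intro i u; simp only [nd]; split_ifs <;> norm_num
  have hb0 : ∀ i u, 0 ≤ bal i u + depF R o d i u := by
    intro i u; rw [hb]; exact add_nonneg (hnn i u) (hnd i u)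
  have hb1 : 1 ≤ bal j (o j) + depF R o d j (o j) := by
    have h1 : nd j (o j) 1 j (o j) = 1 := by unfold nd; exact if_pos ⟨rfl, rfl⟩
    rw [hb, h1]; linarith [hnn j (o j)]
  -- the intermediate weight
  set g : ℕ → ℤ → ℝ := fun i u => bal i u + lvl0 (fun u => (M u : ℝ) - (T u : ℝ) / (2 * KK) - 8 * NN) i u
    with hgdef
  set g1 : ℕ → ℤ → ℝ := fun i u => g i u + (depF R o d i u - lvl0 (fun u => (t u : ℝ) / (2 * KK)) i u)
    with hg1def
  have hS1 : ∀ i u, SS g1 i u ≤ 1 := by
    intro i u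
    have e1 : SS g1 i u = SS g i u + (SS (depF R o d) i u - SS (lvl0 (fun u => (t u : ℝ) / (2 * KK))) i u) := by
      rw [hg1def, SS_add, SS_sub]
    rw [e1]
    linarith [h.le i u, hdep i u]
  have hpos : ∀ i u, 0 ≤ g1 (i + 1) u := by
    intro i u
    have := hb0 (i + 1) u
    simp only [hg1def, hgdef, lvl0]
    rw [if_neg (Nat.succ_ne_zero i), if_neg (Nat.succ_ne_zero i)]
    linarith
  have hcell : ∀ c, g1 0 c = (bal 0 c + depF R o d 0 c) + M c - ((T c + t c : ℕ) : ℝ) / (2 * KK) - 8 * NN := by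
    intro c
    simp only [hg1def, hgdef, lvl0, if_true]
    push_cast
    rw [add_div]
    ring
  have hTK : ∀ c, ((T c + t c : ℕ) : ℝ) / (2 * KK) ≤ 1 / 2 := by
    intro c
    rw [div_le_iff₀ hK]
    have : ((T c + t c : ℕ) : ℝ) ≤ KK := by exact_mod_cast ht c
    linarith
  -- the cell
  obtain ⟨c, hcj, hcM, hc0⟩ : ∃ c : ℤ, c / 2 ^ j = o j ∧ 2 * M c < KK ∧
      ∀ i < j, SS g1 i (c / 2 ^ i) ≤ 0 := by
    rcases j with _ | j
    · refine ⟨o 0, by simp, ?_, fun i hi => absurd hi (Nat.not_lt_zero i)⟩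
      have h1 := hS1 0 (o 0)
      have h2 : SS g1 0 (o 0) = g1 0 (o 0) := rfl
      rw [h2, hcell] at h1
      have h3 := hTK (o 0)
      have h4 : (M (o 0) : ℝ) ≤ 8 * NN + 1 / 2 := by linarith
      have h5 : (2 * M (o 0) : ℝ) < KK := by
        have : (KK : ℝ) = 20 * 10 ^ 6 := by unfold KK; norm_num
        rw [this]; unfold NN at h4; linarith
      exact_mod_cast h5
    · have h1 := hS1 (j + 1) (o (j + 1))
      simp only [SS] at h1
      have h2 : 1 ≤ g1 (j + 1) (o (j + 1)) := by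
        simp only [hg1def, hgdef, lvl0]
        rw [if_neg (Nat.succ_ne_zero j), if_neg (Nat.succ_ne_zero j)]
        linarith
      have : SS g1 j (2 * o (j + 1)) ≤ 0 ∨ SS g1 j (2 * o (j + 1) + 1) ≤ 0 := by
        by_contra hcon
        push Not at hcon
        linarith [hcon.1, hcon.2]
      obtain ⟨c, hc, hc2⟩ : ∃ c : ℤ, c / 2 ^ (j + 1) = o (j + 1) ∧ ∀ i' ≤ j, SS g1 i' (c / 2 ^ i') ≤ 0 := by
        rcases this with h3 | h3
        · obtain ⟨c, hc, hc2⟩ := descent g1 hpos j _ h3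
          refine ⟨c, ?_, hc2⟩
          rw [pow_succ, ← Int.ediv_ediv_of_nonneg (by positivity), hc]; omega
        · obtain ⟨c, hc, hc2⟩ := descent g1 hpos j _ h3
          refine ⟨c, ?_, hc2⟩
          rw [pow_succ, ← Int.ediv_ediv_of_nonneg (by positivity), hc]; omega
      refine ⟨c, hc, ?_, fun i hi => hc2 i (by omega)⟩
      have h4 := hc2 0 (Nat.zero_le _)
      have h5 : SS g1 0 (c / 2 ^ 0) = g1 0 c := by simp [SS]
      rw [h5, hcell] at h4
      have h6 := hTK c
      have h7 := hb0 0 c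
      have h8 : (M c : ℝ) ≤ 8 * NN + 1 / 2 := by linarith
      have h9 : (2 * M c : ℝ) < KK := by
        have : (KK : ℝ) = 20 * 10 ^ 6 := by unfold KK; norm_num
        rw [this]; unfold NN at h8; linarith
      exact_mod_cast h9
  refine ⟨c, hcj, hcM, hnn, ht, fun i u => ?_⟩
  have e : ∀ i u, bal' i u + lvl0 (fun u => ((Function.update M c (M c + 1) u : ℕ) : ℝ) -
      ((T u + t u : ℕ) : ℝ) / (2 * KK) - 8 * NN) i u = (g1 i u + nd 0 c 1 i u) - nd j (o j) 1 i u := by
    intro i u
    have h1 := hb i u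
    have h2 : bal' i u = bal i u + depF R o d i u - nd j (o j) 1 i u := by linarith
    rw [h2]
    simp only [hg1def, hgdef]
    have h3 : lvl0 (fun u => ((Function.update M c (M c + 1) u : ℕ) : ℝ) -
      ((T u + t u : ℕ) : ℝ) / (2 * KK) - 8 * NN) i u =
      lvl0 (fun u => (M u : ℝ) - (T u : ℝ) / (2 * KK) - 8 * NN) i u -
      lvl0 (fun u => (t u : ℝ) / (2 * KK)) i u + nd 0 c 1 i u := by
      simp only [lvl0, nd]
      by_cases h4 : i = 0
      · rw [if_pos h4, if_pos h4, if_pos h4]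
        push_cast
        rw [add_div]
        by_cases h5 : u = c
        · subst h5
          rw [Function.update_self, if_pos ⟨h4, rfl⟩]; push_cast; ring
        · rw [Function.update_of_ne h5, if_neg (fun h' => h5 h'.2)]; ring
      · rw [if_neg h4, if_neg h4, if_neg h4, if_neg (fun h' => h4 h'.1)]; ring
    rw [h3]; ring
  rw [SS_congr _ _ e, SS_sub, SS_add, SS_nd, SS_nd]
  have h1 := hS1 i u
  simp only [Nat.zero_le, true_and, Nat.sub_zero]
  by_cases hij : j ≤ i
  · have e2 : c / 2 ^ i = o j / 2 ^ (i - j) := by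
      rw [← hcj, Int.ediv_ediv_of_nonneg (by positivity), ← pow_add, Nat.add_sub_cancel' hij]
    rw [e2]
    by_cases h2 : o j / 2 ^ (i - j) = u
    · rw [if_pos h2, if_pos ⟨hij, h2⟩]; linarith
    · rw [if_neg h2, if_neg (fun h' => h2 h'.2)]; linarith
  · rw [if_neg (fun h' : j ≤ i ∧ _ => hij h'.1)]
    by_cases h2 : c / 2 ^ i = u
    · rw [if_pos h2]
      have := hc0 i (not_le.1 hij)
      rw [h2] at this; linarith
    · rw [if_neg h2]; linarith

end

end Pool.Agent.EvenGame
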