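import Pool.Agent.EvenGame.Defs
import Pool.Agent.EvenGame.Core

set_option autoImplicit false

namespace Pool.Agent.EvenGame

open Finset

noncomputable section

theorem cap_pos (i : ℕ) : 0 < cap i := by unfold cap NN; positivity

theorem lam_pos (i : ℕ) : 0 < lam i := by unfold lam; exact div_pos (by positivity) (cap_pos i)

theorem Lam_pos (i : ℕ) : 0 < Lam i := by unfold Lam; positivity

theorem mu_pos (s : Sys) (i : ℕ) (p : ℤ) : 0 < mu s i p := by unfold mu; positivity

theorem al_pos (s : Sys) (i : ℕ) (p : ℤ) : 0 < al s i p := by unfold al; positivity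

theorem PiS_nonneg (s : Sys) (i : ℕ) (p : ℤ) : 0 ≤ PiS s i p := by
  induction i generalizing p with
  | zero => simp [PiS]
  | succ i ih =>
    rw [PiS]
    have h1 := ih (2 * p); have h2 := ih (2 * p + 1)
    have h3 := mu_pos s i (2 * p); have h4 := mu_pos s i (2 * p + 1)
    have h5 := al_pos s i (2 * p); have h6 := al_pos s i (2 * p + 1)
    linarith

/-- potential of a child inside the parent -/
def chS (s : Sys) (i : ℕ) (p : ℤ) : ℝ := PiS s i p + al s i p + mu s i p

theorem chS_nonneg (s : Sys) (i : ℕ) (p : ℤ) : 0 ≤ chS s i p := by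
  unfold chS
  have h1 := PiS_nonneg s i p; have h3 := mu_pos s i p; have h5 := al_pos s i p
  linarith

theorem PiS_succ (s : Sys) (i : ℕ) (p : ℤ) :
    PiS s (i + 1) p = chS s i (2 * p) + chS s i (2 * p + 1) := rfl

theorem child_cases (q : ℤ) : q = 2 * (q / 2) ∨ q = 2 * (q / 2) + 1 := by omega

theorem chS_le_parent (s : Sys) (i : ℕ) (q : ℤ) : chS s i q ≤ PiS s (i + 1) (q / 2) := by
  rw [PiS_succ]
  have h1 := chS_nonneg s i (2 * (q / 2) + 1)
  have h2 := chS_nonneg s i (2 * (q / 2))
  rcases child_cases q with h | h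
  · have h3 : chS s i q = chS s i (2 * (q / 2)) := congrArg _ h
    linarith
  · have h3 : chS s i q = chS s i (2 * (q / 2) + 1) := congrArg _ h
    linarith

theorem al_le (s : Sys) (hs : Inv s) (i : ℕ) (p : ℤ) : al s i p ≤ 2 ^ (i + 2) := by
  have h1 := chS_le_parent s i p
  have h2 := hs.h2 (i + 1) (p / 2)
  have h3 := PiS_nonneg s i p; have h4 := mu_pos s i p
  unfold chS at h1
  have : (2 : ℝ) ^ (i + 1 + 1) = 2 ^ (i + 2) := by ring
  linarith

theorem mu_le (s : Sys) (hs : Inv s) (i : ℕ) (p : ℤ) : mu s i p ≤ 2 ^ (i + 2) := by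
  have h1 := chS_le_parent s i p
  have h2 := hs.h2 (i + 1) (p / 2)
  have h3 := PiS_nonneg s i p; have h4 := al_pos s i p
  unfold chS at h1
  have : (2 : ℝ) ^ (i + 1 + 1) = 2 ^ (i + 2) := by ring
  linarith

theorem y_le (s : Sys) (hs : Inv s) (i : ℕ) (p : ℤ) : s.y i p ≤ cap i := by
  have h := mu_le s hs i p
  unfold mu at h
  have h2 : Real.exp (lam i * s.y i p - ((i : ℝ) + 3)) ≤ 1 := by
    by_contra hc
    push Not at hc
    have : (0 : ℝ) < 2 ^ (i + 2) := by positivity
    nlinarith
  have h3 : lam i * s.y i p - ((i : ℝ) + 3) ≤ 0 := by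
    rwa [Real.exp_le_one_iff] at h2
  have hc := cap_pos i
  have h4 : lam i * s.y i p ≤ (i : ℝ) + 3 := by linarith
  unfold lam at h4
  rw [div_mul_eq_mul_div, div_le_iff₀ hc] at h4
  have h5 : (0 : ℝ) < (i : ℝ) + 3 := by positivity
  exact le_of_mul_le_mul_left h4 h5

theorem inv_zero : Inv ⟨fun _ _ => 0, fun _ _ => 0⟩ := by
  have key : ∀ i p, PiS ⟨fun _ _ => 0, fun _ _ => 0⟩ i p ≤ 2 ^ i * (1 - Real.exp (-(i : ℝ))) := by
    intro i
    induction i with
    | zero => intro p; simp [PiS]
    | succ i ih =>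
      intro p
      have h1 := ih (2 * p); have h2 := ih (2 * p + 1)
      rw [PiS_succ]
      have hch : ∀ q, chS ⟨fun _ _ => 0, fun _ _ => 0⟩ i q
          = PiS ⟨fun _ _ => 0, fun _ _ => 0⟩ i q + 2 * (2 ^ (i + 2) * Real.exp (-((i : ℝ) + 3))) := by
        intro q
        unfold chS al mu
        simp only [mul_zero, zero_sub]
        ring
      rw [hch, hch]
      have he1 : Real.exp (-((i : ℝ) + 3)) = Real.exp (-(i : ℝ)) * (Real.exp (-1)) ^ 3 := by
        rw [← Real.exp_nat_mul, ← Real.exp_add]; congr 1; push_cast; ring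
      have he2 : Real.exp (-((i + 1 : ℕ) : ℝ)) = Real.exp (-(i : ℝ)) * Real.exp (-1) := by
        rw [← Real.exp_add]; congr 1; push_cast; ring
      rw [he1, he2]
      have hq : Real.exp (-1) ≤ 37 / 100 := by
        rw [Real.exp_neg]
        have := Real.exp_one_gt_d9
        rw [inv_le_comm₀ (Real.exp_pos 1) (by norm_num)]
        norm_num
        linarith
      have hq0 : 0 < Real.exp (-1) := Real.exp_pos _
      set q := Real.exp (-1)
      set E := Real.exp (-(i : ℝ))
      have hE : 0 < E := Real.exp_pos _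
      have hP : (0 : ℝ) < 2 ^ i := by positivity
      have hq3 : q ^ 3 ≤ (37 / 100) ^ 3 := by gcongr
      have h3 : 8 * q ^ 3 + q ≤ 1 := by norm_num at hq3 ⊢; linarith
      have h4 : (2 : ℝ) ^ (i + 2) = 4 * 2 ^ i := by ring
      have h5 : (2 : ℝ) ^ (i + 1) = 2 * 2 ^ i := by ring
      rw [h4, h5]
      have h6 : 0 ≤ 2 ^ i * E * (1 - (8 * q ^ 3 + q)) := by
        apply mul_nonneg (by positivity); linarith
      nlinarith [h6]
  constructor
  · intro i p
    have h := key i p
    have : 0 < Real.exp (-(i : ℝ)) := Real.exp_pos _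
    have hP : (0 : ℝ) < 2 ^ i := by positivity
    simp only [add_zero]
    nlinarith
  · intro i p
    have h := key i p
    have : 0 < Real.exp (-(i : ℝ)) := Real.exp_pos _
    have hP : (0 : ℝ) < 2 ^ i := by positivity
    have h5 : (2 : ℝ) ^ (i + 1) = 2 * 2 ^ i := by ring
    rw [h5]
    nlinarith

theorem path_succ (x : ℤ) (i : ℕ) : x / 2 ^ (i + 1) = (x / 2 ^ i) / 2 := by
  rw [pow_succ, Int.ediv_ediv_of_nonneg (by positivity)]

theorem sys_step (s : Sys) (hs : Inv s) (x : ℤ) (R : ℕ) (d : ℕ → ℝ) (hd : ∀ i < R, 0 ≤ d i)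
    (hsum : ∑ i ∈ range R, d i = 2) :
    ∃ j < R, ∃ s' : Sys, Inv s' ∧ ∀ i p, s'.y i p =
      s.y i p + (if i < R ∧ p = x / 2 ^ i then (if i = j then 1 else 0) - d i else 0) := by
  set v : ℕ → ℤ := fun i => x / 2 ^ i with hv
  have hvs : ∀ i, v (i + 1) = v i / 2 := fun i => path_succ x i
  obtain ⟨j, hj, hD⟩ := core R (fun i => al s i (v i)) (fun i => mu s i (v i)) d
    (fun i _ => ⟨(al_pos s i _).le, al_le s hs i _⟩) (fun i _ => ⟨(mu_pos s i _).le, mu_le s hs i _⟩) hd hsum
  set e : ℕ → ℝ := fun i => (if i = j then 1 else 0) - d i with he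
  set D : ℕ → ℝ := Del (fun i => al s i (v i)) (fun i => mu s i (v i)) e with hDdef
  have hD0 : D 0 = 0 := rfl
  have hDs : ∀ i, D (i + 1) = D i + al s i (v i) * (Real.exp (Lam i * D i) - 1) +
      mu s i (v i) * (Real.exp (lam i * e i) - 1) := fun i => rfl
  let s' : Sys := ⟨fun i p => s.y i p + (if i < R ∧ p = v i then e i else 0),
    fun i p => s.G i p + (if i < R ∧ p = v i then D i else 0)⟩
  have hmu1 : ∀ i q, ¬ (i < R ∧ q = v i) → mu s' i q = mu s i q := by
    intro i q h; simp only [mu, s', if_neg h, add_zero]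
  have hal1 : ∀ i q, ¬ (i < R ∧ q = v i) → al s' i q = al s i q := by
    intro i q h; simp only [al, s', if_neg h, add_zero]
  have hmu2 : ∀ i, i < R → mu s' i (v i) = mu s i (v i) * Real.exp (lam i * e i) := by
    intro i h
    simp only [mu, s', h, and_self, if_true]
    rw [mul_assoc, ← Real.exp_add]; congr 2; ring
  have hal2 : ∀ i, i < R → al s' i (v i) = al s i (v i) * Real.exp (Lam i * D i) := by
    intro i h
    simp only [al, s', h, and_self, if_true]
    rw [mul_assoc, ← Real.exp_add]; congr 2; ring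
  -- the change of the potential
  have hPi : ∀ i p, PiS s' i p = PiS s i p + (if p = v i then D (min i R) else 0) := by
    intro i
    induction i with
    | zero => intro p; simp [PiS, hD0]
    | succ i ih =>
      have hch : ∀ q, chS s' i q = chS s i q + (if q = v i then D (min (i + 1) R) else 0) := by
        intro q
        unfold chS
        rw [ih q]
        by_cases hq : q = v i
        · by_cases hi : i < R
          · have h1 : min i R = i := min_eq_left hi.le
            have h2 : min (i + 1) R = i + 1 := min_eq_left hi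
            rw [if_pos hq, if_pos hq, h1, h2, hDs i, hq, hmu2 i hi, hal2 i hi]
            ring
          · have h1 : min i R = R := min_eq_right (not_lt.mp hi)
            have h2 : min (i + 1) R = R := min_eq_right (by omega)
            rw [if_pos hq, if_pos hq, h1, h2, hmu1 i q (by tauto), hal1 i q (by tauto)]
            ring
        · rw [if_neg hq, if_neg hq, hmu1 i q (by tauto), hal1 i q (by tauto)]
          ring
      intro p
      rw [PiS_succ, PiS_succ, hch, hch]
      have hvi := hvs i
      by_cases hp : p = v (i + 1)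
      · rcases child_cases (v i) with h | h
        · have h1 : 2 * p = v i := by rw [hp, hvi]; exact h.symm
          have h2 : ¬ (2 * p + 1 = v i) := by omega
          rw [if_pos h1, if_neg h2, if_pos hp]; ring
        · have h1 : 2 * p + 1 = v i := by rw [hp, hvi]; exact h.symm
          have h2 : ¬ (2 * p = v i) := by omega
          rw [if_neg h2, if_pos h1, if_pos hp]; ring
      · have h1 : ¬ (2 * p = v i) := by
          intro h; apply hp; rw [hvi, ← h]; omega
        have h2 : ¬ (2 * p + 1 = v i) := by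
          intro h; apply hp; rw [hvi, ← h]; omega
        rw [if_neg h1, if_neg h2, if_neg hp]; ring
  have hI1 : ∀ i p, PiS s' i p ≤ 2 ^ i + s'.G i p := by
    intro i p
    have h := hs.h1 i p
    rw [hPi]
    by_cases hp : p = v i
    · by_cases hi : i < R
      · simp only [s', hp, hi, and_self, if_true, min_eq_left hi.le]
        rw [hp] at h
        linarith
      · simp only [s', hp, hi, false_and, if_true, if_false, min_eq_right (not_lt.mp hi)]
        rw [hp] at h
        linarith
    · simp only [s', hp, and_false, if_false]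
      linarith
  have hal' : ∀ k, al s' k (v k) ≤ PiS s' (k + 1) (v (k + 1)) := by
    intro k
    have h1 := chS_le_parent s' k (v k)
    rw [← hvs k] at h1
    unfold chS at h1
    have h3 := PiS_nonneg s' k (v k); have h4 := mu_pos s' k (v k)
    linarith
  have hstep : ∀ k, 2 ^ (k + 1) < PiS s' k (v k) → 2 ^ (k + 2) < PiS s' (k + 1) (v (k + 1)) := by
    intro k hk
    refine lt_of_lt_of_le ?_ (hal' k)
    have hG : (2 : ℝ) ^ k < s'.G k (v k) := by
      have h := hI1 k (v k)
      have h5 : (2 : ℝ) ^ (k + 1) = 2 * 2 ^ k := by ring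
      rw [h5] at hk
      linarith
    have hL : (k : ℝ) + 3 < Lam k * s'.G k (v k) := by
      have hP : (0 : ℝ) < 2 ^ k := by positivity
      have h1 : Lam k * 2 ^ k = (k : ℝ) + 3 := by unfold Lam; field_simp
      calc (k : ℝ) + 3 = Lam k * 2 ^ k := h1.symm
        _ < Lam k * s'.G k (v k) := by
            apply mul_lt_mul_of_pos_left hG (Lam_pos k)
    unfold al
    have h1 : 1 < Real.exp (Lam k * s'.G k (v k) - ((k : ℝ) + 3)) := by
      rw [Real.one_lt_exp_iff]; linarith
    have hP : (0 : ℝ) < 2 ^ (k + 2) := by positivity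
    nlinarith
  have hI2 : ∀ i p, PiS s' i p ≤ 2 ^ (i + 1) := by
    intro i p
    by_cases hp : p = v i
    · rw [hp]
      by_cases hi : i < R
      · by_contra hcon
        push Not at hcon
        have hup : ∀ k, i ≤ k → 2 ^ (k + 1) < PiS s' k (v k) := by
          intro k hk
          induction k, hk using Nat.le_induction with
          | base => exact hcon
          | succ k hk ih => exact hstep k ih
        have h1 := hup R hi.le
        rw [hPi R (v R), if_pos rfl, min_self] at h1
        have h2 := hs.h2 R (v R)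
        linarith
      · rw [hPi, if_pos rfl, min_eq_right (not_lt.mp hi)]
        have h2 := hs.h2 i (v i)
        linarith
    · rw [hPi, if_neg hp, add_zero]
      exact hs.h2 i p
  exact ⟨j, hj, s', ⟨hI1, hI2⟩, fun i p => rfl⟩

end

end Pool.Agent.EvenGame
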