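import Pool.Agent.EvenGame.Defs
import Pool.Agent.EvenGame.System
import Pool.Agent.EvenGame.Place
import Pool.Agent.EvenGame.Geometry

set_option autoImplicit false

namespace Pool.Agent.EvenGame

open Finset

noncomputable section

theorem KK_pos : 0 < KK := by unfold KK; norm_num

theorem KK_posZ : (0 : ℤ) < (KK : ℤ) := by exact_mod_cast KK_pos

/-- Balances of the two systems (left accounts keyed by `(i, u - 1)`, right accounts in the mirrored
coordinate `-2 - u`). -/
def balF (L Rt : Sys) : ℕ → ℤ → ℝ := fun i u => (cap i - L.y i (u - 1)) + (cap i - Rt.y i (-2 - u))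

/-- State of Player 2: two systems, used numbers `U` and replies `Q`. -/
structure St where
  L : Sys
  Rt : Sys
  U : Finset ℤ
  Q : Finset ℤ

def cellCount (S : Finset ℤ) (c : ℤ) : ℕ := (S.filter (fun z => z / (KK : ℤ) = c)).card

structure St.Good (s : St) : Prop where
  hL : Inv s.L
  hR : Inv s.Rt
  hP : PInv (cellCount s.Q) (cellCount s.U) (balF s.L s.Rt)

theorem div_eq_iff_cell (z c : ℤ) : z / (KK : ℤ) = c ↔ c * KK ≤ z ∧ z < (c + 1) * KK := by
  constructor
  · intro h
    constructor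
    · rw [← h]; exact Int.ediv_mul_le z KK_posZ.ne'
    · rw [← h]; exact Int.lt_ediv_add_one_mul_self z KK_posZ
  · rintro ⟨h1, h2⟩
    apply le_antisymm
    · have := Int.ediv_lt_of_lt_mul KK_posZ h2
      omega
    · exact (Int.le_ediv_iff_mul_le KK_posZ).mpr h1

theorem cellCount_le (S : Finset ℤ) (c : ℤ) : cellCount S c ≤ KK := by
  unfold cellCount
  have h : S.filter (fun z => z / (KK : ℤ) = c) ⊆ Ico (c * KK) ((c + 1) * KK) := by
    intro z hz
    rw [mem_filter, div_eq_iff_cell] at hz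
    rw [mem_Ico]; exact hz.2
  have h2 := card_le_card h
  rw [Int.card_Ico] at h2
  have h3 : ((c + 1) * KK - c * KK : ℤ) = KK := by ring
  rw [h3, Int.toNat_natCast] at h2
  exact h2

theorem cellCount_union (S T : Finset ℤ) (h : Disjoint S T) (c : ℤ) :
    cellCount (S ∪ T) c = cellCount S c + cellCount T c := by
  unfold cellCount
  rw [filter_union, card_union_of_disjoint]
  exact disjoint_filter_filter h

theorem neg_path (b : ℤ) (i : ℕ) : (-1 - b) / 2 ^ i = -1 - b / 2 ^ i := by
  have hp : (0 : ℤ) < 2 ^ i := by positivity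
  have h1 := Int.ediv_mul_le b hp.ne'
  have h2 := Int.lt_ediv_add_one_mul_self b hp
  apply le_antisymm
  · have : (-1 - b) < (-1 - b / 2 ^ i + 1) * 2 ^ i := by nlinarith
    have := Int.ediv_lt_of_lt_mul hp this
    omega
  · rw [Int.le_ediv_iff_mul_le hp]; nlinarith

/-- the cells strictly between the extreme cells contain most tokens -/
theorem tokens_inside (A : Finset ℤ) (hA : A.card = 10 * KK) (hne : A.Nonempty) :
    8 * KK ≤ ∑ u ∈ Ioo (A.min' hne / (KK : ℤ)) (A.max' hne / (KK : ℤ)), cellCount A u := by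
  set x := A.min' hne / (KK : ℤ) with hx
  set b := A.max' hne / (KK : ℤ) with hb
  have hxb : x ≤ b := Int.ediv_le_ediv KK_posZ (A.min'_le _ (A.max'_mem hne))
  have hsum : ∑ u ∈ Icc x b, cellCount A u = 10 * KK := by
    rw [← hA]
    unfold cellCount
    rw [← card_eq_sum_card_fiberwise]
    intro z hz
    simp only [coe_Icc, Set.mem_Icc]
    exact ⟨Int.ediv_le_ediv KK_posZ (A.min'_le _ hz), Int.ediv_le_ediv KK_posZ (A.le_max' _ hz)⟩
  have hcov : Icc x b ⊆ Ioo x b ∪ {x, b} := by
    intro u hu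
    simp only [mem_Icc, mem_union, mem_Ioo, mem_insert, mem_singleton] at hu ⊢
    omega
  have h1 : ∑ u ∈ Icc x b, cellCount A u ≤ ∑ u ∈ Ioo x b ∪ {x, b}, cellCount A u :=
    sum_le_sum_of_subset hcov
  have h2 : ∑ u ∈ Ioo x b ∪ {x, b}, cellCount A u ≤
      ∑ u ∈ Ioo x b, cellCount A u + ∑ u ∈ ({x, b} : Finset ℤ), cellCount A u := by
    rw [← sum_union_inter]
    exact Nat.le_add_right _ _
  have h3 : ∑ u ∈ ({x, b} : Finset ℤ), cellCount A u ≤ 2 * KK := by
    calc ∑ u ∈ ({x, b} : Finset ℤ), cellCount A u ≤ ∑ u ∈ ({x, b} : Finset ℤ), KK :=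
          sum_le_sum (fun u _ => cellCount_le A u)
      _ = ({x, b} : Finset ℤ).card * KK := by rw [sum_const, smul_eq_mul]
      _ ≤ 2 * KK := Nat.mul_le_mul_right _ card_le_two
  omega

/-- a free even number in a cell -/
theorem free_even (Q : Finset ℤ) (c : ℤ) (h : 2 * cellCount Q c < KK) :
    ∃ e : ℤ, Even e ∧ e ∉ Q ∧ e / (KK : ℤ) = c := by
  by_contra hcon
  push Not at hcon
  have hK2 : KK = 2 * (KK / 2) := by unfold KK; norm_num
  have hK2Z : (KK : ℤ) = 2 * ((KK / 2 : ℕ) : ℤ) := by exact_mod_cast hK2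
  have himg : (range (KK / 2)).image (fun m : ℕ => c * KK + 2 * (m : ℤ)) ⊆
      Q.filter (fun z => z / (KK : ℤ) = c) := by
    intro z hz
    rw [mem_image] at hz
    obtain ⟨m, hm, rfl⟩ := hz
    rw [mem_range] at hm
    have hcell : (c * KK + 2 * (m : ℤ)) / (KK : ℤ) = c := by
      rw [div_eq_iff_cell]
      constructor
      · have : (0 : ℤ) ≤ m := by positivity
        linarith
      · have : (m : ℤ) < ((KK / 2 : ℕ) : ℤ) := by exact_mod_cast hm
        nlinarith
    rw [mem_filter]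
    refine ⟨?_, hcell⟩
    by_contra hq
    refine hcon _ ?_ hq hcell
    rw [hK2Z]
    exact ⟨c * ((KK / 2 : ℕ) : ℤ) + m, by ring⟩
  have hc := card_le_card himg
  rw [card_image_of_injective, card_range] at hc
  · unfold cellCount at h
    omega
  · intro m n hmn
    simp only at hmn
    have : (m : ℤ) = n := by linarith
    exact_mod_cast this

theorem cellCount_insert (Q : Finset ℤ) (e c : ℤ) (he : e ∉ Q) (hc : e / (KK : ℤ) = c) :
    cellCount (insert e Q) = Function.update (cellCount Q) c (cellCount Q c + 1) := by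
  funext u
  by_cases hu : u = c
  · rw [hu, Function.update_self]
    unfold cellCount
    rw [filter_insert, if_pos hc, card_insert_of_notMem]
    intro h
    exact he (mem_filter.mp h).1
  · rw [Function.update_of_ne hu]
    unfold cellCount
    rw [filter_insert, if_neg]
    rw [hc]; exact fun h => hu h.symm

theorem step (s : St) (hs : s.Good) (A : Finset ℤ) (hA : A.card = 10 * KK) (hdis : Disjoint A s.U) :
    ∃ e : ℤ, ∃ s' : St, Even e ∧ e ∉ s.Q ∧ (∃ a ∈ A, ∃ c ∈ A, a ≤ e ∧ e ≤ c) ∧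
      s'.Good ∧ s'.U = s.U ∪ A ∧ s'.Q = insert e s.Q := by
  have hKp := KK_pos
  have hne : A.Nonempty := by rw [← card_pos, hA]; omega
  set x := A.min' hne / (KK : ℤ) with hx
  set b := A.max' hne / (KK : ℤ) with hb
  have htok := tokens_inside A hA hne
  rw [← hx, ← hb] at htok
  have hTt : ∀ u, cellCount s.U u + cellCount A u ≤ KK := by
    intro u
    rw [← cellCount_union s.U A hdis.symm]
    exact cellCount_le _ _
  have hTt' : (fun u => cellCount s.U u + cellCount A u) = cellCount (s.U ∪ A) := by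
    funext u
    rw [cellCount_union s.U A hdis.symm]
  -- finishing from a cell
  have fin : ∀ (L' Rt' : Sys) (c : ℤ), Inv L' → Inv Rt' → x < c → c < b →
      2 * cellCount s.Q c < KK →
      PInv (Function.update (cellCount s.Q) c (cellCount s.Q c + 1))
        (fun u => cellCount s.U u + cellCount A u) (balF L' Rt') →
      ∃ e : ℤ, ∃ s' : St, Even e ∧ e ∉ s.Q ∧ (∃ a ∈ A, ∃ c ∈ A, a ≤ e ∧ e ≤ c) ∧
      s'.Good ∧ s'.U = s.U ∪ A ∧ s'.Q = insert e s.Q := by
    intro L' Rt' c hL' hRt' hxc hcb hM hP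
    obtain ⟨e, he1, he2, he3⟩ := free_even s.Q c hM
    refine ⟨e, ⟨L', Rt', s.U ∪ A, insert e s.Q⟩, he1, he2, ?_, ⟨hL', hRt', ?_⟩, rfl, rfl⟩
    · refine ⟨A.min' hne, A.min'_mem hne, A.max' hne, A.max'_mem hne, ?_, ?_⟩
      · by_contra hlt
        push Not at hlt
        have := Int.ediv_le_ediv KK_posZ hlt.le
        rw [he3] at this
        omega
      · by_contra hlt
        push Not at hlt
        have := Int.ediv_le_ediv KK_posZ hlt.le
        rw [he3] at this
        omega
    · show PInv (cellCount (insert e s.Q)) (cellCount (s.U ∪ A)) (balF L' Rt')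
      rw [cellCount_insert s.Q e c he2 he3, ← hTt']
      exact hP
  rcases geometry (cellCount A) x b htok with ⟨R, d, hd, hsum, hopt, hdep⟩ | ⟨R, d, hd, hsum, hopt, hdep⟩
  · obtain ⟨j, hj, L', hL', hy⟩ := sys_step s.L hs.hL x R d hd hsum
    have hbal : ∀ i u, balF L' s.Rt i u = balF s.L s.Rt i u +
        (if i < R ∧ u = x / 2 ^ i + 1 then d i - (if i = j then 1 else 0) else 0) := by
      intro i u
      unfold balF
      rw [hy]
      have hiff : (i < R ∧ u - 1 = x / 2 ^ i) ↔ (i < R ∧ u = x / 2 ^ i + 1) := by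
        constructor <;> rintro ⟨h1, h2⟩ <;> exact ⟨h1, by omega⟩
      by_cases h : i < R ∧ u = x / 2 ^ i + 1
      · rw [if_pos h, if_pos (hiff.mpr h)]; ring
      · rw [if_neg h, if_neg (fun h' => h (hiff.mp h'))]; ring
    have hnn : ∀ i u, 0 ≤ balF L' s.Rt i u := by
      intro i u
      unfold balF
      have h1 := y_le L' hL' i (u - 1)
      have h2 := y_le s.Rt hs.hR i (-2 - u)
      linarith
    obtain ⟨c, hc, hM, hP⟩ := place _ _ _ _ hs.hP (cellCount A) hTt R (fun i => x / 2 ^ i + 1) d j hj hd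
      hbal hnn hdep
    have hp : (0 : ℤ) < 2 ^ j := by positivity
    have h1 := Int.ediv_mul_le c hp.ne'
    have h2 := Int.lt_ediv_add_one_mul_self c hp
    have h3 := Int.lt_ediv_add_one_mul_self x hp
    have h4 := hopt j hj
    rw [hc] at h1 h2
    apply fin L' s.Rt c hL' hs.hR (by linarith) _ hM hP
    calc c < (x / 2 ^ j + 1 + 1) * 2 ^ j := h2
      _ = (x / 2 ^ j + 2) * 2 ^ j := by ring
      _ ≤ b := h4
  · obtain ⟨j, hj, R', hR', hy⟩ := sys_step s.Rt hs.hR (-1 - b) R d hd hsum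
    have hbal : ∀ i u, balF s.L R' i u = balF s.L s.Rt i u +
        (if i < R ∧ u = b / 2 ^ i - 1 then d i - (if i = j then 1 else 0) else 0) := by
      intro i u
      unfold balF
      rw [hy]
      have hiff : (i < R ∧ -2 - u = (-1 - b) / 2 ^ i) ↔ (i < R ∧ u = b / 2 ^ i - 1) := by
        rw [neg_path]
        constructor <;> rintro ⟨h1, h2⟩ <;> exact ⟨h1, by omega⟩
      by_cases h : i < R ∧ u = b / 2 ^ i - 1
      · rw [if_pos h, if_pos (hiff.mpr h)]; ring
      · rw [if_neg h, if_neg (fun h' => h (hiff.mp h'))]; ring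
    have hnn : ∀ i u, 0 ≤ balF s.L R' i u := by
      intro i u
      unfold balF
      have h1 := y_le s.L hs.hL i (u - 1)
      have h2 := y_le R' hR' i (-2 - u)
      linarith
    obtain ⟨c, hc, hM, hP⟩ := place _ _ _ _ hs.hP (cellCount A) hTt R (fun i => b / 2 ^ i - 1) d j hj hd
      hbal hnn hdep
    have hp : (0 : ℤ) < 2 ^ j := by positivity
    have h1 := Int.ediv_mul_le c hp.ne'
    have h2 := Int.lt_ediv_add_one_mul_self c hp
    have h3 := Int.ediv_mul_le b hp.ne'
    have h4 := hopt j hj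
    rw [hc] at h1 h2
    apply fin s.L R' c hs.hL hR' (by linarith) _ hM hP
    calc c < (b / 2 ^ j - 1 + 1) * 2 ^ j := h2
      _ = b / 2 ^ j * 2 ^ j := by ring
      _ ≤ b := h3

/-- The initial state. -/
def St.init : St := ⟨⟨fun _ _ => 0, fun _ _ => 0⟩, ⟨fun _ _ => 0, fun _ _ => 0⟩, ∅, ∅⟩

theorem init_good : St.init.Good := by
  refine ⟨inv_zero, inv_zero, ?_⟩
  have h := pinv_zero
  have h1 : cellCount St.init.Q = fun _ => 0 := by funext c; simp [cellCount, St.init]
  have h2 : cellCount St.init.U = fun _ => 0 := by funext c; simp [cellCount, St.init]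
  have h3 : balF St.init.L St.init.Rt = fun i _ => 2 * cap i := by
    funext i u; simp [balF, St.init]; ring
  rw [h1, h2, h3]
  exact h

open Classical in
/-- Player 2's reply and next state. -/
def next (s : St) (A : Finset ℤ) : ℤ × St :=
  if h : s.Good ∧ A.card = 10 * KK ∧ Disjoint A s.U then
    ((step s h.1 A h.2.1 h.2.2).choose, (step s h.1 A h.2.1 h.2.2).choose_spec.choose)
  else (0, s)

theorem next_spec (s : St) (A : Finset ℤ) (h : s.Good ∧ A.card = 10 * KK ∧ Disjoint A s.U) :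
    Even (next s A).1 ∧ (next s A).1 ∉ s.Q ∧ (∃ a ∈ A, ∃ c ∈ A, a ≤ (next s A).1 ∧ (next s A).1 ≤ c) ∧
      (next s A).2.Good ∧ (next s A).2.U = s.U ∪ A ∧ (next s A).2.Q = insert (next s A).1 s.Q := by
  unfold next
  rw [dif_pos h]
  exact (step s h.1 A h.2.1 h.2.2).choose_spec.choose_spec

/-- The history of the play against `σ`. -/
def hist (σ : List ℤ → Finset ℤ) : ℕ → List ℤ × St
  | 0 => ([], St.init)
  | n + 1 => ((hist σ n).1 ++ [(next (hist σ n).2 (σ (hist σ n).1)).1], (next (hist σ n).2 (σ (hist σ n).1)).2)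

/-- Player 2's moves against `σ`. -/
def reply (σ : List ℤ → Finset ℤ) (n : ℕ) : ℤ := (next (hist σ n).2 (σ (hist σ n).1)).1

theorem hist_fst (σ : List ℤ → Finset ℤ) (n : ℕ) :
    (hist σ n).1 = List.ofFn (fun j : Fin n => reply σ j) := by
  induction n with
  | zero => simp [hist]
  | succ n ih =>
    rw [List.ofFn_succ_last]
    simp only [Fin.val_castSucc, Fin.val_last]
    rw [← ih]
    rfl

/-- Player 2 survives. -/
theorem survive (σ : List ℤ → Finset ℤ) :
    ∃ b : ℕ → ℤ, ∀ n : ℕ,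
      (∀ i ≤ n, (σ (List.ofFn (fun j : Fin i => b j))).card = 10 * KK ∧
        ∀ i' < i, Disjoint (σ (List.ofFn (fun j : Fin i => b j))) (σ (List.ofFn (fun j : Fin i' => b j)))) →
      (Even (b n) ∧ (∃ a ∈ σ (List.ofFn (fun j : Fin n => b j)),
        ∃ c ∈ σ (List.ofFn (fun j : Fin n => b j)), a ≤ b n ∧ b n ≤ c) ∧ ∀ i < n, b i ≠ b n) := by
  refine ⟨reply σ, ?_⟩
  intro n hleg
  simp only [← hist_fst] at hleg ⊢
  have key : ∀ m ≤ n, (hist σ m).2.Good ∧
      (∀ z ∈ (hist σ m).2.U, ∃ i < m, z ∈ σ (hist σ i).1) ∧ (∀ i < m, reply σ i ∈ (hist σ m).2.Q) := by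
    intro m
    induction m with
    | zero =>
      intro _
      exact ⟨init_good, by simp [hist, St.init], by simp⟩
    | succ m ih =>
      intro hm
      obtain ⟨h1, h2, h3⟩ := ih (by omega)
      have hd : Disjoint (σ (hist σ m).1) (hist σ m).2.U := by
        rw [Finset.disjoint_left]
        intro z hz hzU
        obtain ⟨i, hi, hzi⟩ := h2 z hzU
        exact Finset.disjoint_left.mp ((hleg m (by omega)).2 i hi) hz hzi
      have hn := next_spec (hist σ m).2 (σ (hist σ m).1) ⟨h1, (hleg m (by omega)).1, hd⟩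
      obtain ⟨_, _, _, g4, g5, g6⟩ := hn
      have e2 : (hist σ (m + 1)).2 = (next (hist σ m).2 (σ (hist σ m).1)).2 := rfl
      refine ⟨by rw [e2]; exact g4, ?_, ?_⟩
      · intro z hz
        rw [e2, g5, mem_union] at hz
        rcases hz with hz | hz
        · obtain ⟨i, hi, hzi⟩ := h2 z hz
          exact ⟨i, by omega, hzi⟩
        · exact ⟨m, by omega, hz⟩
      · intro i hi
        rw [e2, g6, mem_insert]
        rcases Nat.lt_succ_iff_lt_or_eq.mp hi with h | h
        · exact Or.inr (h3 i h)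
        · left; rw [h]; rfl
  obtain ⟨h1, h2, h3⟩ := key n le_rfl
  have hd : Disjoint (σ (hist σ n).1) (hist σ n).2.U := by
    rw [Finset.disjoint_left]
    intro z hz hzU
    obtain ⟨i, hi, hzi⟩ := h2 z hzU
    exact Finset.disjoint_left.mp ((hleg n le_rfl).2 i hi) hz hzi
  obtain ⟨g1, g2, g3, _, _, _⟩ := next_spec (hist σ n).2 (σ (hist σ n).1) ⟨h1, (hleg n le_rfl).1, hd⟩
  refine ⟨g1, g3, ?_⟩
  intro i hi heq
  apply g2
  have := h3 i hi
  rw [heq] at this
  exact this

end

end Pool.Agent.EvenGame
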